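import Pool.Agent.H966.N6.Stm

/-!
Tasks Ex and A: the product formula and the asymptotics of `G`.
-/

set_option autoImplicit false

namespace Pool.Agent.H966.N6

open Finset Filter Topology
open Pool.Agent.H965.Both (kap kap_pos change_norm tipFormula_ris)
open Pool.Agent.Y996.TL (ris ris_pos)

namespace A

theorem G_ris (k : ℕ) : G k = ris (1/3) (2*k) / ris (1/2) (2*k) := by
  unfold G ris
  rw [← Finset.prod_div_distrib]
  refine Finset.prod_congr rfl fun i _ => ?_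
  rw [add_comm (i:ℝ) (1/3), add_comm (i:ℝ) (1/2)]

/-- the product -/
noncomputable def H (n : ℕ) : ℝ := ∏ i ∈ range n, (((i:ℝ) + 1/3) / ((i:ℝ) + 1/2))

theorem H_pos (n : ℕ) : 0 < H n := prod_pos fun i _ => by positivity

theorem H_seq (n : ℕ) (hn : 0 < n) : H (n+1) * (n:ℝ)^((1:ℝ)/6) =
    Real.GammaSeq (1/2) n / Real.GammaSeq (1/3) n := by
  have hn' : (0:ℝ) < n := by exact_mod_cast hn
  unfold H Real.GammaSeq
  rw [prod_div_distrib]
  have h1 : ∏ j ∈ range (n+1), ((1/2:ℝ) + j) = ∏ j ∈ range (n+1), ((j:ℝ) + 1/2) :=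
    prod_congr rfl fun j _ => add_comm _ _
  have h2 : ∏ j ∈ range (n+1), ((1/3:ℝ) + j) = ∏ j ∈ range (n+1), ((j:ℝ) + 1/3) :=
    prod_congr rfl fun j _ => add_comm _ _
  rw [h1, h2]
  have p1 : 0 < ∏ j ∈ range (n+1), ((j:ℝ) + 1/2) := prod_pos fun i _ => by positivity
  have p2 : 0 < ∏ j ∈ range (n+1), ((j:ℝ) + 1/3) := prod_pos fun i _ => by positivity
  have p3 : (0:ℝ) < n.factorial := by exact_mod_cast Nat.factorial_pos n
  have e : (n:ℝ)^((1:ℝ)/2) = (n:ℝ)^((1:ℝ)/3) * (n:ℝ)^((1:ℝ)/6) := by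
    rw [← Real.rpow_add hn']
    norm_num
  rw [e]
  have p4 : (0:ℝ) < (n:ℝ)^((1:ℝ)/3) := Real.rpow_pos_of_pos hn' _
  generalize (∏ j ∈ range (n+1), ((j:ℝ) + 1/2)) = a at *
  generalize (∏ j ∈ range (n+1), ((j:ℝ) + 1/3)) = b at *
  generalize (n:ℝ)^((1:ℝ)/3) = c at *
  generalize (n:ℝ)^((1:ℝ)/6) = d at *
  generalize (n.factorial:ℝ) = f at *
  field_simp

/-- `(n+1)/n → 1` -/
theorem succ_div : Tendsto (fun n : ℕ => ((n:ℝ) + 1) / (n:ℝ)) atTop (𝓝 1) := by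
  have h := (tendsto_const_nhds (x := (1:ℝ))).add (tendsto_one_div_atTop_nhds_zero_nat (𝕜 := ℝ))
  rw [add_zero] at h
  refine h.congr' ?_
  filter_upwards [eventually_gt_atTop 0] with n hn
  have hn' : (0:ℝ) < n := by exact_mod_cast hn
  field_simp

theorem H_lim : Tendsto (fun n : ℕ => H n * (n:ℝ)^((1:ℝ)/6)) atTop (𝓝 kap) := by
  have h1 : Tendsto (fun n : ℕ => Real.GammaSeq (1/2) n / Real.GammaSeq (1/3) n) atTop
      (𝓝 kap) := by
    have h := (Real.GammaSeq_tendsto_Gamma (1/2)).div (Real.GammaSeq_tendsto_Gamma (1/3))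
      (Real.Gamma_pos_of_pos (by norm_num)).ne'
    rw [Real.Gamma_one_half_eq] at h
    exact h
  have h2 : Tendsto (fun n : ℕ => H (n+1) * (n:ℝ)^((1:ℝ)/6)) atTop (𝓝 kap) := by
    refine h1.congr' ?_
    filter_upwards [eventually_gt_atTop 0] with n hn
    exact (H_seq n hn).symm
  have h4 : Tendsto (fun n : ℕ => H (n+1) * (((n:ℝ) + 1))^((1:ℝ)/6)) atTop (𝓝 kap) := by
    refine change_norm (F := fun n => H (n+1)) (X := fun n => (n:ℝ)) (Y := fun n => (n:ℝ) + 1)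
      h2 ?_ ?_ succ_div
    · filter_upwards [eventually_gt_atTop 0] with n hn
      exact_mod_cast hn
    · exact Eventually.of_forall fun n => by positivity
  refine (tendsto_add_atTop_iff_nat 1).1 ?_
  refine h4.congr fun n => ?_
  push_cast
  rfl

theorem G_lim : Tendsto (fun k : ℕ => G k * (k:ℝ)^((1:ℝ)/6)) atTop
    (𝓝 (kap * 2^(-(1:ℝ)/6))) := by
  have h2 : Tendsto (fun k : ℕ => 2 * k) atTop atTop := by
    refine tendsto_atTop_mono (fun n => ?_) tendsto_id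
    simp only [id]
    omega
  have h := (H_lim.comp h2).mul_const ((2:ℝ)^(-(1:ℝ)/6))
  refine h.congr fun k => ?_
  simp only [Function.comp_apply]
  have e1 : (((2 * k : ℕ)) : ℝ)^((1:ℝ)/6) = (2:ℝ)^((1:ℝ)/6) * (k:ℝ)^((1:ℝ)/6) := by
    push_cast
    rw [Real.mul_rpow (by norm_num) (Nat.cast_nonneg k)]
  have e2 : (2:ℝ)^((1:ℝ)/6) * (2:ℝ)^(-(1:ℝ)/6) = 1 := by
    rw [← Real.rpow_add (by norm_num)]
    norm_num
  rw [e1]
  calc H (2 * k) * ((2:ℝ)^((1:ℝ)/6) * (k:ℝ)^((1:ℝ)/6)) * (2:ℝ)^(-(1:ℝ)/6) =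
      H (2 * k) * (k:ℝ)^((1:ℝ)/6) * ((2:ℝ)^((1:ℝ)/6) * (2:ℝ)^(-(1:ℝ)/6)) := by ring
    _ = _ := by rw [e2, mul_one]; rfl

theorem G_pos (k : ℕ) : 0 < G k := H_pos (2 * k)

end A

theorem t_Ex : S_Ex := by
  intro k l hk hl
  obtain ⟨k, rfl⟩ : ∃ m, k = m + 1 := ⟨k - 1, by omega⟩
  obtain ⟨l, rfl⟩ : ∃ m, l = m + 1 := ⟨l - 1, by omega⟩
  have e1 : 2 * (k + 1) - 1 = 2 * k + 1 := by omega
  have e2 : 2 * (l + 1) - 1 = 2 * l + 1 := by omega
  rw [e1, e2, tipFormula_ris _ _ ⟨k, rfl⟩ ⟨l, rfl⟩, A.G_ris, A.G_ris, A.G_ris]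
  have e3 : 2 * k + 1 + 1 = 2 * (k + 1) := by ring
  have e4 : 2 * l + 1 + 1 = 2 * (l + 1) := by ring
  have e5 : 2 * k + 1 + (2 * l + 1) + 2 = 2 * (k + 1 + (l + 1)) := by ring
  rw [e3, e4, e5]
  have p1 := (ris_pos (s := 1 / 2) (by norm_num) (2 * (k + 1))).ne'
  have p2 := (ris_pos (s := 1 / 2) (by norm_num) (2 * (l + 1))).ne'
  have p3 := (ris_pos (s := 1 / 2) (by norm_num) (2 * (k + 1 + (l + 1)))).ne'
  have p4 := (ris_pos (s := 1 / 3) (by norm_num) (2 * (k + 1 + (l + 1)))).ne'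
  field_simp

theorem t_A : S_A := by
  refine ⟨A.G_lim, ?_⟩
  have hL : 0 < kap * (2:ℝ)^(-(1:ℝ)/6) := mul_pos kap_pos (Real.rpow_pos_of_pos (by norm_num) _)
  have hF : Tendsto (fun k : ℕ => G k * ((k:ℝ) + 1)^((1:ℝ)/6)) atTop
      (𝓝 (kap * 2^(-(1:ℝ)/6))) := by
    refine change_norm (F := G) (X := fun n => (n:ℝ)) (Y := fun n => (n:ℝ) + 1)
      A.G_lim ?_ ?_ A.succ_div
    · filter_upwards [eventually_gt_atTop 0] with n hn
      exact_mod_cast hn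
    · exact Eventually.of_forall fun n => by positivity
  have hpos : ∀ k : ℕ, 0 < G k * ((k:ℝ) + 1)^((1:ℝ)/6) := fun k =>
    mul_pos (A.G_pos k) (Real.rpow_pos_of_pos (by positivity) _)
  obtain ⟨C, hC⟩ := hF.bddAbove_range
  obtain ⟨D, hD⟩ := (hF.inv₀ hL.ne').bddAbove_range
  refine ⟨(|D| + 1)⁻¹, |C| + 1, by positivity, by positivity, fun k => ⟨?_, ?_⟩⟩
  · have h1 : (G k * ((k:ℝ) + 1)^((1:ℝ)/6))⁻¹ ≤ D := hD ⟨k, rfl⟩
    have h2 : (G k * ((k:ℝ) + 1)^((1:ℝ)/6))⁻¹ ≤ |D| + 1 := by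
      have := le_abs_self D
      linarith
    exact (inv_le_comm₀ (hpos k) (by positivity)).1 h2
  · have h1 : G k * ((k:ℝ) + 1)^((1:ℝ)/6) ≤ C := hC ⟨k, rfl⟩
    have := le_abs_self C
    linarith

end Pool.Agent.H966.N6
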