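import Pool.Agent.H966.N6.Stm

/-!
# The local limit theorem and the bound
-/

set_option autoImplicit false

namespace Pool.Agent.H966.N6

open Pool.Agent.H965.Both (kap kap_pos)
open MeasureTheory Filter Topology Finset Relation

namespace D

theorem G_pos (k : ℕ) : 0 < G k := by
  unfold G
  exact Finset.prod_pos fun i _ => by positivity

/-- powers of a quotient -/
theorem quo (a b : ℝ) (ha : 0 < a) (hb : 0 < b) :
    (a / b) ^ (-(1:ℝ)/6) = b ^ ((1:ℝ)/6) / a ^ ((1:ℝ)/6) := by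
  rw [neg_div, Real.rpow_neg (by positivity), Real.div_rpow ha.le hb.le, inv_div]

theorem pow136 (N : ℝ) (hN : 0 < N) : N ^ ((13:ℝ)/6) = N ^ 2 * N ^ ((1:ℝ)/6) := by
  have h : (13:ℝ)/6 = 2 + 1/6 := by norm_num
  rw [h, Real.rpow_add hN, Real.rpow_two]

theorem bound (hA : S_A) (hP : S_P1) : ∃ C : ℝ, 0 < C ∧ ∀ k l : ℕ,
    pp k l * ((k:ℝ)+l+1)^((13:ℝ)/6) ≤
      C * (((l:ℝ)+1)/((k:ℝ)+l+1))^(-(1:ℝ)/6) * (((k:ℝ)+1)/((k:ℝ)+l+1))^(-(1:ℝ)/6) := by
  obtain ⟨-, c, C, hc, hC, hG⟩ := hA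
  refine ⟨C ^ 2 / c, by positivity, ?_⟩
  intro k l
  have hN : (0:ℝ) < (k:ℝ)+l+1 := by positivity
  have hk : (0:ℝ) < (k:ℝ)+1 := by positivity
  have hl : (0:ℝ) < (l:ℝ)+1 := by positivity
  rw [quo _ _ hl hN, quo _ _ hk hN, pow136 _ hN]
  have h1 := (hG k).2
  have h2 := (hG l).2
  have h3 := (hG (k+l)).1
  rw [Nat.cast_add] at h3
  have hP1 : 0 < ((k:ℝ)+1) ^ ((1:ℝ)/6) := Real.rpow_pos_of_pos hk _
  have hP2 : 0 < ((l:ℝ)+1) ^ ((1:ℝ)/6) := Real.rpow_pos_of_pos hl _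
  have hP3 : 0 < ((k:ℝ)+l+1) ^ ((1:ℝ)/6) := Real.rpow_pos_of_pos hN _
  have h4 := (hP k l).2
  have hGk := G_pos k
  have hGl := G_pos l
  have hGkl := G_pos (k+l)
  generalize ((k:ℝ)+1) ^ ((1:ℝ)/6) = P1 at *
  generalize ((l:ℝ)+1) ^ ((1:ℝ)/6) = P2 at *
  generalize ((k:ℝ)+l+1) ^ ((1:ℝ)/6) = P3 at *
  have h5 : pp k l * (((k:ℝ)+l+1) ^ 2 * P3) ≤ U k l * P3 := by
    rw [le_div_iff₀ (by positivity)] at h4
    calc pp k l * (((k:ℝ)+l+1) ^ 2 * P3) = pp k l * ((k:ℝ)+l+1) ^ 2 * P3 := by ring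
      _ ≤ U k l * P3 := mul_le_mul_of_nonneg_right h4 hP3.le
  refine h5.trans ?_
  have h6 : (G k * P1) * (G l * P2) ≤ C * C := mul_le_mul h1 h2 (by positivity) hC.le
  have h7 : (G k * P1) * (G l * P2) * c ≤ C * C * (G (k+l) * P3) :=
    mul_le_mul h6 h3 hc.le (by positivity)
  unfold U
  have e1 : G k * G l / G (k+l) * P3 =
      ((G k * P1) * (G l * P2) * c) * (P3 / (P1 * P2 * G (k+l) * c)) := by
    field_simp
  have e2 : C ^ 2 / c * (P3 / P2) * (P3 / P1) =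
      (C * C * (G (k+l) * P3)) * (P3 / (P1 * P2 * G (k+l) * c)) := by
    field_simp
  rw [e1, e2]
  exact mul_le_mul_of_nonneg_right h7 (by positivity)

theorem lim (hA : S_A) (hP : S_P2) (t : ℝ) (k l : ℕ → ℕ) (ht : 0 < t) (ht1 : t < 1)
    (hkl : Tendsto (fun n => k n + l n) atTop atTop)
    (hlt : Tendsto (fun n => (l n : ℝ) / ((k n : ℝ) + l n)) atTop (𝓝 t)) :
    Tendsto (fun n => pp (k n) (l n) * ((k n : ℝ) + l n)^((13:ℝ)/6)) atTop (𝓝 (dens t)) := by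
  have hklR : Tendsto (fun n => (k n : ℝ) + l n) atTop atTop := by
    have := (tendsto_natCast_atTop_atTop (R := ℝ)).comp hkl
    refine this.congr fun n => ?_
    simp
  have hpos : ∀ᶠ n in atTop, (0:ℝ) < (k n : ℝ) + l n := hklR.eventually_gt_atTop 0
  have hkt : Tendsto (fun n => (k n : ℝ) / ((k n : ℝ) + l n)) atTop (𝓝 (1 - t)) := by
    have h1 : Tendsto (fun n => 1 - (l n : ℝ) / ((k n : ℝ) + l n)) atTop (𝓝 (1 - t)) :=
      tendsto_const_nhds.sub hlt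
    refine h1.congr' ?_
    filter_upwards [hpos] with n hn
    field_simp
    ring
  have hlR : Tendsto (fun n => (l n : ℝ)) atTop atTop := by
    have h1 := hlt.pos_mul_atTop ht hklR
    refine h1.congr' ?_
    filter_upwards [hpos] with n hn
    field_simp
  have hkR : Tendsto (fun n => (k n : ℝ)) atTop atTop := by
    have h1 := hkt.pos_mul_atTop (by linarith : 0 < 1 - t) hklR
    refine h1.congr' ?_
    filter_upwards [hpos] with n hn
    field_simp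
  have hlN : Tendsto l atTop atTop := tendsto_natCast_atTop_iff.1 hlR
  have hkN : Tendsto k atTop atTop := tendsto_natCast_atTop_iff.1 hkR
  obtain ⟨hG, -⟩ := hA
  obtain ⟨K, hKdef⟩ : ∃ K : ℝ, K = kap * 2^(-(1:ℝ)/6) := ⟨_, rfl⟩
  rw [← hKdef] at hG
  have hK : 0 < K := by
    rw [hKdef]
    have := kap_pos
    positivity
  have g1 := hG.comp hkN
  have g2 := hG.comp hlN
  have g3 := hG.comp hkl
  have g4 := hP t k l ht ht1 hkl hlt
  have g5 : Tendsto (fun n => ((l n : ℝ) / ((k n : ℝ) + l n) * ((k n : ℝ) / ((k n : ℝ) + l n))) ^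
      (-(1:ℝ)/6)) atTop (𝓝 ((t * (1 - t)) ^ (-(1:ℝ)/6))) := by
    refine (hlt.mul hkt).rpow_const (Or.inl ?_)
    have : 0 < t * (1 - t) := mul_pos ht (by linarith)
    exact this.ne'
  have g6 := g4.mul (((g1.mul g2).div g3 hK.ne').mul g5)
  have e1 : 5 / 36 * (K * K / K * (t * (1 - t)) ^ (-(1:ℝ)/6)) = dens t := by
    unfold dens
    rw [← hKdef, mul_self_div_self]
    ring
  rw [e1] at g6
  refine g6.congr' ?_
  filter_upwards [hpos, hlR.eventually_gt_atTop 0, hkR.eventually_gt_atTop 0] with n hn hl hk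
  simp only [Function.comp_apply, Pi.div_apply]
  have hGk := G_pos (k n)
  have hGl := G_pos (l n)
  have hGkl := G_pos (k n + l n)
  rw [Real.mul_rpow (by positivity) (by positivity), quo _ _ hl hn, quo _ _ hk hn, pow136 _ hn,
    Nat.cast_add]
  have hP1 : 0 < (k n : ℝ) ^ ((1:ℝ)/6) := Real.rpow_pos_of_pos hk _
  have hP2 : 0 < (l n : ℝ) ^ ((1:ℝ)/6) := Real.rpow_pos_of_pos hl _
  have hP3 : 0 < ((k n : ℝ) + l n) ^ ((1:ℝ)/6) := Real.rpow_pos_of_pos hn _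
  unfold U
  generalize (k n : ℝ) ^ ((1:ℝ)/6) = P1 at *
  generalize (l n : ℝ) ^ ((1:ℝ)/6) = P2 at *
  generalize ((k n : ℝ) + l n) ^ ((1:ℝ)/6) = P3 at *
  field_simp

end D

theorem t_D : S_D := fun hA h1 h2 => ⟨D.lim hA h2, D.bound hA h1⟩

end Pool.Agent.H966.N6
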