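import Pool.Agent.H966.N6.Stm
import Pool.Graph.R_seed8.H757R2.CardyLimit

/-!
The extents of the cluster of the tip: from the windows to the law of the position (helper966).
-/

set_option autoImplicit false

namespace Pool.Agent.H966.N6

open Pool.Agent.H988R2.Perc hiding X
open Pool.Agent.H965.Both (kap)
open MeasureTheory Filter Topology Finset Relation

theorem probP : IsProbabilityMeasure perc := inferInstance

theorem RL_anti {k k' : ℕ} (h : k ≤ k') : RL k' ⊆ RL k := by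
  rintro ω ⟨y, h1, h2⟩
  have : (k:ℤ) ≤ k' := by exact_mod_cast h
  exact ⟨y, h1, by omega⟩

theorem RR_anti {l l' : ℕ} (h : l ≤ l') : RR l' ⊆ RR l := by
  rintro ω ⟨y, h1, h2⟩
  have : (l:ℤ) ≤ l' := by exact_mod_cast h
  exact ⟨y, h1, by omega⟩

/-- the extents are unique -/
theorem Win_unique {k l k' l' : ℕ} {ω : Conf} (h : ω ∈ Win k l) (h' : ω ∈ Win k' l') :
    k = k' ∧ l = l' := by
  obtain ⟨a1, a2, a3, a4⟩ := h
  obtain ⟨b1, b2, b3, b4⟩ := h'
  constructor
  · rcases lt_trichotomy k k' with hk | hk | hk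
    · exact absurd (RL_anti (show k + 1 ≤ k' by omega) b1) a2
    · exact hk
    · exact absurd (RL_anti (show k' + 1 ≤ k by omega) a1) b2
  · rcases lt_trichotomy l l' with hk | hk | hk
    · exact absurd (RR_anti (show l + 1 ≤ l' by omega) b3) a4
    · exact hk
    · exact absurd (RR_anti (show l' + 1 ≤ l by omega) a3) b4

theorem meas_Win (hM : S_Meas) (k l : ℕ) : MeasurableSet (Win k l) := by
  have : Win k l = (RL k ∩ (RL (k+1))ᶜ) ∩ (RR l ∩ (RR (l+1))ᶜ) := by
    ext ω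
    unfold Win
    simp only [Set.mem_inter_iff, Set.mem_compl_iff, Set.mem_ofPred_eq]
    tauto
  rw [this]
  exact ((hM.1 k).inter (hM.1 (k+1)).compl).inter ((hM.2 l).inter (hM.2 (l+1)).compl)

/-- the width is `w`, the position at most `s` -/
def Ev (w : ℕ) (s : ℝ) : Set Conf := {ω | ∃ k l : ℕ, k + l = w ∧ (l:ℝ) ≤ s * w ∧ ω ∈ Win k l}

/-- the width is at least `N`, the position at most `s` -/
def Ev' (N : ℕ) (s : ℝ) : Set Conf :=
  {ω | ∃ k l : ℕ, N ≤ k + l ∧ (l:ℝ) ≤ s * ((k:ℝ) + l) ∧ ω ∈ Win k l}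

/-- the probability of `Ev` -/
noncomputable def qq (s : ℝ) (w : ℕ) : ℝ :=
  ∑ l ∈ (range (w+1)).filter (fun l : ℕ => (l:ℝ) ≤ s * w), pp (w-l) l

theorem Ev_eq (w : ℕ) (s : ℝ) :
    Ev w s = ⋃ l ∈ (range (w+1)).filter (fun l : ℕ => (l:ℝ) ≤ s * w), Win (w-l) l := by
  ext ω
  simp only [Set.mem_iUnion, mem_filter, mem_range, exists_prop]
  constructor
  · rintro ⟨k, l, h1, h2, h3⟩
    refine ⟨l, ⟨by omega, h2⟩, ?_⟩
    rw [show w - l = k by omega]
    exact h3
  · rintro ⟨l, ⟨h1, h2⟩, h3⟩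
    exact ⟨w - l, l, by omega, h2, h3⟩

theorem meas_Ev (hM : S_Meas) (w : ℕ) (s : ℝ) : MeasurableSet (Ev w s) := by
  rw [Ev_eq]
  exact Finset.measurableSet_biUnion _ fun l _ => meas_Win hM _ _

theorem Ev_real (hM : S_Meas) (hW : ∀ k l : ℕ, perc.real (Win k l) = pp k l) (w : ℕ) (s : ℝ) :
    perc.real (Ev w s) = qq s w := by
  rw [Ev_eq, measureReal_biUnion_finset]
  · exact Finset.sum_congr rfl fun l _ => hW _ _
  · intro l _ l' _ hl
    rw [Function.onFun, Set.disjoint_left]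
    intro ω h h'
    exact hl (Win_unique h h').2
  · exact fun l _ => meas_Win hM _ _

theorem Ev'_eq (N : ℕ) (s : ℝ) : Ev' N s = ⋃ w : ℕ, Ev (w + N) s := by
  ext ω
  simp only [Set.mem_iUnion]
  constructor
  · rintro ⟨k, l, h1, h2, h3⟩
    refine ⟨k + l - N, k, l, by omega, ?_, h3⟩
    rw [show k + l - N + N = k + l by omega]
    push_cast
    exact h2
  · rintro ⟨w, k, l, h1, h2, h3⟩
    refine ⟨k, l, by omega, ?_, h3⟩
    rw [← h1] at h2
    push_cast at h2
    exact h2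

theorem Ev_disj (s : ℝ) (N : ℕ) : Pairwise (Function.onFun Disjoint fun w : ℕ => Ev (w + N) s) := by
  intro w w' h
  rw [Function.onFun, Set.disjoint_left]
  rintro ω ⟨k, l, h1, h2, h3⟩ ⟨k', l', h1', h2', h3'⟩
  obtain ⟨e1, e2⟩ := Win_unique h3 h3'
  omega

theorem Ev'_sum (hM : S_Meas) (hW : ∀ k l : ℕ, perc.real (Win k l) = pp k l) (N : ℕ) (s : ℝ) :
    Summable (fun w => qq s (w + N)) ∧ perc.real (Ev' N s) = ∑' w, qq s (w + N) := by
  have h1 : perc (Ev' N s) = ∑' w : ℕ, perc (Ev (w + N) s) := by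
    rw [Ev'_eq]
    exact measure_iUnion (Ev_disj s N) fun w => meas_Ev hM _ _
  have h2 : ∀ w, perc (Ev (w + N) s) ≠ ⊤ := fun w => measure_ne_top _ _
  have h3 : ∑' w : ℕ, perc (Ev (w + N) s) ≠ ⊤ := by
    rw [← h1]
    exact measure_ne_top _ _
  have h4 : (fun w => qq s (w + N)) = fun w => (perc (Ev (w + N) s)).toReal := by
    funext w
    rw [← Ev_real hM hW]
    rfl
  rw [h4]
  refine ⟨ENNReal.summable_toReal h3, ?_⟩
  rw [← ENNReal.tsum_toReal_eq h2, ← h1]
  rfl

theorem qq_nonneg (hM : S_Meas) (hW : ∀ k l : ℕ, perc.real (Win k l) = pp k l) (s : ℝ) (w : ℕ) :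
    0 ≤ qq s w := by
  rw [← Ev_real hM hW]
  exact measureReal_nonneg

/-- almost surely the extents are finite -/
theorem ae_ext (hL : ∀ k, perc.real (RL k) = G k) (hR : ∀ l, perc.real (RR l) = G l)
    (h0 : Tendsto G atTop (𝓝 0)) : ∀ᵐ ω ∂perc, ∃ k l, ω ∈ Win k l := by
  have e1 : perc (⋂ k, RL k) = 0 := by
    have : perc.real (⋂ k, RL k) ≤ 0 := by
      refine ge_of_tendsto' h0 fun k => ?_
      rw [← hL k]
      exact measureReal_mono (Set.iInter_subset _ k)
    have h := le_antisymm this measureReal_nonneg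
    rwa [measureReal_eq_zero_iff] at h
  have e2 : perc (⋂ l, RR l) = 0 := by
    have : perc.real (⋂ l, RR l) ≤ 0 := by
      refine ge_of_tendsto' h0 fun k => ?_
      rw [← hR k]
      exact measureReal_mono (Set.iInter_subset _ k)
    have h := le_antisymm this measureReal_nonneg
    rwa [measureReal_eq_zero_iff] at h
  have a1 : ∀ᵐ ω ∂perc, ω ∉ ⋂ k, RL k := measure_eq_zero_iff_ae_notMem.1 e1
  have a2 : ∀ᵐ ω ∂perc, ω ∉ ⋂ l, RR l := measure_eq_zero_iff_ae_notMem.1 e2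
  filter_upwards [a1, a2] with ω h1 h2
  classical
  have z1 : ω ∈ RL 0 := ⟨(0,0), ReflTransGen.refl, by simp⟩
  have z2 : ω ∈ RR 0 := ⟨(0,0), ReflTransGen.refl, by simp⟩
  have x1 : ∃ k, ω ∉ RL k := by
    by_contra h
    push Not at h
    exact h1 (Set.mem_iInter.2 h)
  have x2 : ∃ l, ω ∉ RR l := by
    by_contra h
    push Not at h
    exact h2 (Set.mem_iInter.2 h)
  have k0 : 0 < Nat.find x1 := by
    rw [Nat.pos_iff_ne_zero]
    intro h
    have := Nat.find_spec x1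
    rw [h] at this
    exact this z1
  have l0 : 0 < Nat.find x2 := by
    rw [Nat.pos_iff_ne_zero]
    intro h
    have := Nat.find_spec x2
    rw [h] at this
    exact this z2
  refine ⟨Nat.find x1 - 1, Nat.find x2 - 1, ?_, ?_, ?_, ?_⟩
  · have := Nat.find_min x1 (show Nat.find x1 - 1 < Nat.find x1 by omega)
    push Not at this
    exact this
  · rw [show Nat.find x1 - 1 + 1 = Nat.find x1 by omega]
    exact Nat.find_spec x1
  · have := Nat.find_min x2 (show Nat.find x2 - 1 < Nat.find x2 by omega)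
    push Not at this
    exact this
  · rw [show Nat.find x2 - 1 + 1 = Nat.find x2 by omega]
    exact Nat.find_spec x2

theorem beta_congr {t : ℝ} (ht : t ∈ Set.uIcc (0:ℝ) 1) :
    t^((5:ℝ)/6 - 1) * (1 - t)^((5:ℝ)/6 - 1) = (t*(1-t))^(-(1:ℝ)/6) := by
  rw [Set.uIcc_of_le zero_le_one] at ht
  rw [Real.mul_rpow ht.1 (by linarith [ht.2])]
  norm_num

/-- integrability of the Beta density -/
theorem beta_int : IntervalIntegrable (fun t : ℝ => (t*(1-t))^(-(1:ℝ)/6)) volume 0 1 := by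
  have h := (Pool.Agent.H757R2.CardyLimit.beta_int (α := 5/6) (β := 5/6) (by norm_num)
    (by norm_num)).1
  exact h.congr fun t ht => beta_congr (Set.uIoc_subset_uIcc ht)

theorem beta_val : ∫ t in (0:ℝ)..1, (t*(1-t))^(-(1:ℝ)/6) =
    Real.Gamma (5/6) * Real.Gamma (5/6) / Real.Gamma (5/3) := by
  have h := (Pool.Agent.H757R2.CardyLimit.beta_int (α := 5/6) (β := 5/6) (by norm_num)
    (by norm_num)).2
  rw [show (5/6 + 5/6 : ℝ) = 5/3 by norm_num] at h
  rw [← h]
  exact intervalIntegral.integral_congr fun t ht => (beta_congr ht).symm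

theorem G_zero (hA : S_A) : Tendsto G atTop (𝓝 0) := by
  have h1 : Tendsto (fun k : ℕ => (k:ℝ)^((1:ℝ)/6)) atTop atTop :=
    (tendsto_rpow_atTop (by norm_num)).comp tendsto_natCast_atTop_atTop
  have h2 := hA.1.div_atTop h1
  refine h2.congr' ?_
  filter_upwards [eventually_gt_atTop 0] with k hk
  have hk' : (0:ℝ) < k := by exact_mod_cast hk
  rw [mul_div_cancel_right₀ _ (Real.rpow_pos_of_pos hk' _).ne']

end Pool.Agent.H966.N6
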