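import Pool.Agent.H966.N6.Stm

set_option autoImplicit false

namespace Pool.Agent.H966.N6

open Pool.Agent.H988R2.Perc hiding X
open Pool.Agent.H965.Both (kap Adj2 tip2 ToL ToR perc_real_reindex meas_rtg meas_open real_union)
open Pool.Agent.H981R2.TP (tipFormula)
open MeasureTheory Filter Topology Finset Relation

namespace G

theorem meas_SAdj (x y : ℤ × ℤ) : MeasurableSet {ω | SAdj ω x y} := by
  have e : {ω | SAdj ω x y} = {ω | OpenAdj ω x y} ∩ {_ω |
    ¬ (0 ≤ x.1 + x.2 ∧ 0 ≤ y.1 + y.2 ∧ (x.1 - x.2 = 0 ∨ y.1 - y.2 = 0))} := by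
    ext ω
    rfl
  rw [e]
  exact (meas_open x y).inter (MeasurableSet.const _)

/-- shift of the edges by `(c,-c)` -/
def es (c : ℤ) : Edge ≃ Edge where
  toFun e := (e.1 + c, e.2.1 - c, e.2.2)
  invFun e := (e.1 - c, e.2.1 + c, e.2.2)
  left_inv e := by simp
  right_inv e := by simp

theorem open_es (c : ℤ) (ω : Conf) (x y : ℤ × ℤ) :
    OpenAdj (fun e => ω (es c e)) x y ↔ OpenAdj ω (x.1 + c, x.2 - c) (y.1 + c, y.2 - c) := by
  obtain ⟨x1, x2⟩ := x
  obtain ⟨y1, y2⟩ := y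
  unfold OpenAdj es
  simp only [Equiv.coe_fn_mk, Prod.mk.injEq]
  constructor
  · rintro (⟨⟨h1, h2⟩, h3⟩ | ⟨⟨h1, h2⟩, h3⟩ | ⟨⟨h1, h2⟩, h3⟩ | ⟨⟨h1, h2⟩, h3⟩)
    · exact Or.inl ⟨⟨by omega, by omega⟩, h3⟩
    · exact Or.inr (Or.inl ⟨⟨by omega, by omega⟩, h3⟩)
    · exact Or.inr (Or.inr (Or.inl ⟨⟨by omega, by omega⟩, h3⟩))
    · exact Or.inr (Or.inr (Or.inr ⟨⟨by omega, by omega⟩, h3⟩))
  · rintro (⟨⟨h1, h2⟩, h3⟩ | ⟨⟨h1, h2⟩, h3⟩ | ⟨⟨h1, h2⟩, h3⟩ | ⟨⟨h1, h2⟩, h3⟩)
    · exact Or.inl ⟨⟨by omega, by omega⟩, h3⟩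
    · exact Or.inr (Or.inl ⟨⟨by omega, by omega⟩, h3⟩)
    · exact Or.inr (Or.inr (Or.inl ⟨⟨by omega, by omega⟩, h3⟩))
    · exact Or.inr (Or.inr (Or.inr ⟨⟨by omega, by omega⟩, h3⟩))

theorem col_step {ω : Conf} {x y : ℤ × ℤ} (h : OpenAdj ω x y) :
    y.1 - y.2 = x.1 - x.2 + 1 ∨ y.1 - y.2 = x.1 - x.2 - 1 := by
  rcases h with ⟨h, -⟩ | ⟨h, -⟩ | ⟨h, -⟩ | ⟨h, -⟩ <;> (rw [h]; simp only; omega)

theorem iff_event (k l : ℕ) (hk : 1 ≤ k) (hl : 1 ≤ l) (ω : Conf) :
    (fun e => ω (es k e)) ∈ RL k ∪ RR l ↔ ω ∈ ToL (2*k-1) (2*l-1) ∪ ToR (2*k-1) (2*l-1) := by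
  have ca : ((2*k-1 : ℕ) : ℤ) = 2*k - 1 := by omega
  have cb : ((2*l-1 : ℕ) : ℤ) = 2*l - 1 := by omega
  have ct : tip2 (2*k-1) = ((k:ℤ), -(k:ℤ)) := by
    unfold tip2
    rw [ca]
    ext <;> simp only <;> omega
  constructor
  · have key : ∀ y, Cl (fun e => ω (es k e)) y →
        (ω ∈ ToL (2*k-1) (2*l-1) ∪ ToR (2*k-1) (2*l-1)) ∨
        (-(2*(k:ℤ)) < y.1 - y.2 ∧ y.1 - y.2 < 2*l ∧
          ReflTransGen (Adj2 (2*k-1) (2*l-1) ω) (tip2 (2*k-1)) (y.1 + k, y.2 - k)) := by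
      intro y hy
      induction hy with
      | refl =>
        right
        refine ⟨by simp only; omega, by simp only; omega, ?_⟩
        rw [ct]
        simp only [zero_add, zero_sub]
        exact ReflTransGen.refl
      | @tail y z _ h ih =>
        rcases ih with ih | ⟨i1, i2, i3⟩
        · exact Or.inl ih
        obtain ⟨h1, h2⟩ := h
        have hc := col_step h1
        rw [open_es] at h1
        have hA : Adj2 (2*k-1) (2*l-1) ω (y.1 + k, y.2 - k) (z.1 + k, z.2 - k) := by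
          refine ⟨h1, ⟨?_, ?_⟩, ⟨?_, ?_⟩, ?_⟩
          · simp only; omega
          · simp only; rw [ca, cb]; omega
          · simp only; omega
          · simp only; rw [ca, cb]; omega
          · rintro ⟨g1, g2, g3⟩
            apply h2
            simp only [ca] at g1 g2 g3
            refine ⟨by omega, by omega, ?_⟩
            rcases g3 with g3 | g3
            · left; omega
            · right; omega
        have hz := i3.tail hA
        by_cases e1 : z.1 - z.2 = -(2*(k:ℤ))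
        · left; left
          exact ⟨(z.1 + k, z.2 - k), by simp only; omega, hz⟩
        by_cases e2 : z.1 - z.2 = 2*(l:ℤ)
        · left; right
          exact ⟨(z.1 + k, z.2 - k), by simp only; rw [ca, cb]; omega, hz⟩
        right
        exact ⟨by omega, by omega, hz⟩
    rintro (⟨y, h1, h2⟩ | ⟨y, h1, h2⟩)
    · rcases key y h1 with h | ⟨h3, h4, -⟩
      · exact h
      · omega
    · rcases key y h1 with h | ⟨h3, h4, -⟩
      · exact h
      · omega
  · have key : ∀ y, ReflTransGen (Adj2 (2*k-1) (2*l-1) ω) (tip2 (2*k-1)) y →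
        Cl (fun e => ω (es k e)) (y.1 - k, y.2 + k) := by
      intro y hy
      induction hy with
      | refl =>
        rw [ct]
        simp only [sub_self, neg_add_cancel]
        exact ReflTransGen.refl
      | @tail y z _ h ih =>
        refine ReflTransGen.tail ih ⟨?_, ?_⟩
        · rw [open_es]
          simpa using h.1
        · rintro ⟨g1, g2, g3⟩
          apply h.2.2.2
          rw [ca]
          simp only at g1 g2 g3
          refine ⟨by omega, by omega, ?_⟩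
          rcases g3 with g3 | g3
          · left; omega
          · right; omega
    rintro (⟨y, h1, h2⟩ | ⟨y, h1, h2⟩)
    · left
      exact ⟨_, key y h2, by simp only; omega⟩
    · right
      refine ⟨_, key y h2, ?_⟩
      rw [ca, cb] at h1
      simp only
      omega

end G

open G in
theorem t_Geo : S_Geo := by
  intro k l hk hl
  have oa : Odd (2*k-1) := ⟨k - 1, by omega⟩
  have ob : Odd (2*l-1) := ⟨l - 1, by omega⟩
  rw [← real_union _ _ oa ob, ← perc_real_reindex (es k) (RL k ∪ RR l)]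
  congr 1
  ext ω
  exact iff_event k l hk hl ω

open G in
theorem t_Meas : S_Meas := by
  constructor
  · intro k
    have h := meas_rtg SAdj (fun x y => meas_SAdj x y) (0,0) (fun y => y.1 - y.2 ≤ -(2*(k:ℤ)))
    refine h.congr ?_
    ext ω
    constructor
    · rintro ⟨y, h1, h2⟩; exact ⟨y, h2, h1⟩
    · rintro ⟨y, h1, h2⟩; exact ⟨y, h2, h1⟩
  · intro l
    have h := meas_rtg SAdj (fun x y => meas_SAdj x y) (0,0) (fun y => 2*(l:ℤ) ≤ y.1 - y.2)
    refine h.congr ?_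
    ext ω
    constructor
    · rintro ⟨y, h1, h2⟩; exact ⟨y, h2, h1⟩
    · rintro ⟨y, h1, h2⟩; exact ⟨y, h2, h1⟩

end Pool.Agent.H966.N6
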