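import Pool.Agent.H966.N6.Stm

/-!
Tasks P1, P2 of project N6: bound and limit of a rational function.
-/

set_option autoImplicit false

namespace Pool.Agent.H966.N6

open Filter Topology Finset

namespace P

/-- numerator of the quotient -/
noncomputable def a (x : ℝ) : ℝ := (2 * x + 1 / 3) * (2 * x + 4 / 3)

/-- denominator of the quotient -/
noncomputable def b (x : ℝ) : ℝ := (2 * x + 1 / 2) * (2 * x + 3 / 2)

/-- quotient -/
noncomputable def r (x : ℝ) : ℝ := a x / b x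

/-- `pp / U` -/
noncomputable def R (x y : ℝ) : ℝ :=
  (r x + r y) / r (x + y) - 1 - r x * r y / (r (x + y) * r (x + y + 1))

theorem a_pos {x : ℝ} (hx : 0 ≤ x) : 0 < a x := by
  unfold a
  positivity

theorem b_pos {x : ℝ} (hx : 0 ≤ x) : 0 < b x := by
  unfold b
  positivity

theorem r_pos {x : ℝ} (hx : 0 ≤ x) : 0 < r x := div_pos (a_pos hx) (b_pos hx)

theorem G_succ (k : ℕ) : G (k + 1) = G k * r k := by
  unfold G r a b
  rw [show 2 * (k + 1) = 2 * k + 1 + 1 by ring, Finset.prod_range_succ, Finset.prod_range_succ,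
    mul_assoc]
  congr 1
  push_cast
  rw [div_mul_div_comm]
  congr 1
  · ring
  · ring

theorem G_pos (k : ℕ) : 0 < G k := by
  unfold G
  apply Finset.prod_pos
  intro i _
  positivity

theorem U_pos (k l : ℕ) : 0 < U k l := by
  unfold U
  have h1 := G_pos k
  have h2 := G_pos l
  have h3 := G_pos (k + l)
  positivity

theorem pp_eq (k l : ℕ) : pp k l = U k l * R k l := by
  have h1 := (G_pos k).ne'
  have h2 := (G_pos l).ne'
  have h3 := (G_pos (k + l)).ne'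
  have hk : (0 : ℝ) ≤ k := Nat.cast_nonneg k
  have hl : (0 : ℝ) ≤ l := Nat.cast_nonneg l
  have r3 := (r_pos (add_nonneg hk hl)).ne'
  have r4 := (r_pos (by positivity : (0 : ℝ) ≤ (k : ℝ) + l + 1)).ne'
  unfold pp U R
  rw [show k + 1 + (l + 1) = k + l + 1 + 1 by ring, show k + (l + 1) = k + l + 1 by ring,
    show k + 1 + l = k + l + 1 by ring, G_succ (k + l + 1), G_succ (k + l), G_succ k, G_succ l]
  push_cast
  generalize r (k : ℝ) = rk at *
  generalize r (l : ℝ) = rl at *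
  generalize r ((k : ℝ) + l) = rs at *
  generalize r ((k : ℝ) + l + 1) = rt at *
  generalize G k = gk at *
  generalize G l = gl at *
  generalize G (k + l) = gs at *
  field_simp
  ring

/-- numerator of `R` -/
noncomputable def N (x y : ℝ) : ℝ :=
  (a x * b y + a y * b x) * b (x + y) * a (x + y + 1) - b x * b y * a (x + y) * a (x + y + 1) -
    a x * a y * b (x + y) * b (x + y + 1)

/-- denominator of `R` -/
noncomputable def D (x y : ℝ) : ℝ := b x * b y * a (x + y) * a (x + y + 1)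

theorem R_eq {x y : ℝ} (hx : 0 ≤ x) (hy : 0 ≤ y) : R x y = N x y / D x y := by
  have h1 := (b_pos hx).ne'
  have h2 := (b_pos hy).ne'
  have h3 := (a_pos (add_nonneg hx hy)).ne'
  have h4 := (a_pos (by positivity : 0 ≤ x + y + 1)).ne'
  have h5 := (b_pos (add_nonneg hx hy)).ne'
  have h6 := (b_pos (by positivity : 0 ≤ x + y + 1)).ne'
  unfold R N D r
  generalize a x = ax at *
  generalize a y = ay at *
  generalize b x = bx at *
  generalize b y = by' at *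
  generalize a (x + y) = as at *
  generalize b (x + y) = bs at *
  generalize a (x + y + 1) = at' at *
  generalize b (x + y + 1) = bt at *
  field_simp

theorem N_nonneg {x y : ℝ} (hx : 0 ≤ x) (hy : 0 ≤ y) : 0 ≤ N x y := by
  have h : N x y =
    (35/54) + (418/81) * y ^ 1 + (1088/81) * y ^ 2 + (1120/81) * y ^ 3 + (128/27) * y ^ 4 +
    (418/81) * x ^ 1 + (1531/36) * x ^ 1 * y ^ 1 + (211/2) * x ^ 1 * y ^ 2 +
    (8242/81) * x ^ 1 * y ^ 3 + (872/27) * x ^ 1 * y ^ 4 + (1088/81) * x ^ 2 +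
    (211/2) * x ^ 2 * y ^ 1 + (17851/81) * x ^ 2 * y ^ 2 + (4456/27) * x ^ 2 * y ^ 3 +
    (320/9) * x ^ 2 * y ^ 4 + (1120/81) * x ^ 3 + (8242/81) * x ^ 3 * y ^ 1 +
    (4456/27) * x ^ 3 * y ^ 2 + (640/9) * x ^ 3 * y ^ 3 + (128/27) * x ^ 4 +
    (872/27) * x ^ 4 * y ^ 1 + (320/9) * x ^ 4 * y ^ 2 := by
    unfold N a b
    ring
  rw [h]
  positivity

theorem N_le {x y : ℝ} (hx : 0 ≤ x) (hy : 0 ≤ y) : (x + y + 1) ^ 2 * N x y ≤ D x y := by
  have h : D x y - (x + y + 1) ^ 2 * N x y =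
    (35/27) + (6911/324) * y ^ 1 + (38429/324) * y ^ 2 + (7885/27) * y ^ 3 + (28445/81) * y ^ 4 +
    (16256/81) * y ^ 5 + (1168/27) * y ^ 6 + (6911/324) * x ^ 1 + (27661/108) * x ^ 1 * y ^ 1 +
    (30934/27) * x ^ 1 * y ^ 2 + (771209/324) * x ^ 1 * y ^ 3 + (398341/162) * x ^ 1 * y ^ 4 +
    (98078/81) * x ^ 1 * y ^ 5 + (6040/27) * x ^ 1 * y ^ 6 + (38429/324) * x ^ 2 +
    (30934/27) * x ^ 2 * y ^ 1 + (662119/162) * x ^ 2 * y ^ 2 + (1093139/162) * x ^ 2 * y ^ 3 +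
    (145435/27) * x ^ 2 * y ^ 4 + (51784/27) * x ^ 2 * y ^ 5 + (1984/9) * x ^ 2 * y ^ 6 +
    (7885/27) * x ^ 3 + (771209/324) * x ^ 3 * y ^ 1 + (1093139/162) * x ^ 3 * y ^ 2 +
    (683462/81) * x ^ 3 * y ^ 3 + (125152/27) * x ^ 3 * y ^ 4 + (7936/9) * x ^ 3 * y ^ 5 +
    (28445/81) * x ^ 4 + (398341/162) * x ^ 4 * y ^ 1 + (145435/27) * x ^ 4 * y ^ 2 +
    (125152/27) * x ^ 4 * y ^ 3 + (3968/3) * x ^ 4 * y ^ 4 + (16256/81) * x ^ 5 +
    (98078/81) * x ^ 5 * y ^ 1 + (51784/27) * x ^ 5 * y ^ 2 + (7936/9) * x ^ 5 * y ^ 3 +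
    (1168/27) * x ^ 6 + (6040/27) * x ^ 6 * y ^ 1 + (1984/9) * x ^ 6 * y ^ 2 := by
    unfold N D a b
    ring
  rw [← sub_nonneg, h]
  positivity

theorem D_pos {x y : ℝ} (hx : 0 ≤ x) (hy : 0 ≤ y) : 0 < D x y := by
  have h1 := b_pos hx
  have h2 := b_pos hy
  have h3 := a_pos (add_nonneg hx hy)
  have h4 := a_pos (by positivity : 0 ≤ x + y + 1)
  unfold D
  positivity

theorem R_nonneg {x y : ℝ} (hx : 0 ≤ x) (hy : 0 ≤ y) : 0 ≤ R x y := by
  rw [R_eq hx hy]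
  exact div_nonneg (N_nonneg hx hy) (D_pos hx hy).le

theorem R_le {x y : ℝ} (hx : 0 ≤ x) (hy : 0 ≤ y) : R x y ≤ 1 / (x + y + 1) ^ 2 := by
  rw [R_eq hx hy, div_le_div_iff₀ (D_pos hx hy) (by positivity)]
  have := N_le hx hy
  linarith

/-! Limit -/

/-- `1 - r` -/
noncomputable def e (x : ℝ) : ℝ := (2 / 3 * x + 11 / 36) / b x

theorem r_e {x : ℝ} (hx : 0 ≤ x) : r x = 1 - e x := by
  have h := (b_pos hx).ne'
  unfold r e
  rw [eq_sub_iff_add_eq, ← add_div, div_eq_one_iff_eq h]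
  unfold a b
  ring

theorem lim_e : Tendsto (fun x : ℝ => x * e x) atTop (𝓝 (1 / 6)) := by
  have h1 : Tendsto (fun z : ℝ => (2 / 3 + 11 / 36 * z) / (4 + 4 * z + 3 / 4 * z ^ 2)) (𝓝 0)
      (𝓝 ((2 / 3 + 11 / 36 * 0) / (4 + 4 * 0 + 3 / 4 * 0 ^ 2))) := by
    apply Tendsto.div
    · exact Continuous.tendsto (by fun_prop) 0
    · exact Continuous.tendsto (by fun_prop) 0
    · norm_num
  have h2 := h1.comp tendsto_inv_atTop_zero
  have h3 : (2 / 3 + 11 / 36 * (0 : ℝ)) / (4 + 4 * 0 + 3 / 4 * 0 ^ 2) = 1 / 6 := by norm_num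
  rw [h3] at h2
  refine h2.congr' ?_
  filter_upwards [eventually_gt_atTop 0] with x hx
  have hb := (b_pos hx.le).ne'
  have hb2 : 4 + 4 * x⁻¹ + 3 / 4 * x⁻¹ ^ 2 = b x / x ^ 2 := by
    unfold b
    field_simp
    ring
  simp only [Function.comp]
  rw [hb2]
  unfold e
  field_simp

theorem lim_d : Tendsto (fun x : ℝ => x ^ 2 * (e x - e (x + 1))) atTop (𝓝 (1 / 6)) := by
  have h1 : Tendsto (fun z : ℝ => (8 / 3 + 46 / 9 * z + 35 / 18 * z ^ 2) /
      ((4 + 4 * z + 3 / 4 * z ^ 2) * (4 + 12 * z + 35 / 4 * z ^ 2))) (𝓝 0)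
      (𝓝 ((8 / 3 + 46 / 9 * 0 + 35 / 18 * 0 ^ 2) /
      ((4 + 4 * 0 + 3 / 4 * 0 ^ 2) * (4 + 12 * 0 + 35 / 4 * 0 ^ 2)))) := by
    apply Tendsto.div
    · exact Continuous.tendsto (by fun_prop) 0
    · exact Continuous.tendsto (by fun_prop) 0
    · norm_num
  have h2 := h1.comp tendsto_inv_atTop_zero
  have h3 : (8 / 3 + 46 / 9 * (0 : ℝ) + 35 / 18 * 0 ^ 2) /
      ((4 + 4 * 0 + 3 / 4 * 0 ^ 2) * (4 + 12 * 0 + 35 / 4 * 0 ^ 2)) = 1 / 6 := by norm_num
  rw [h3] at h2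
  refine h2.congr' ?_
  filter_upwards [eventually_gt_atTop 0] with x hx
  have hb := (b_pos hx.le).ne'
  have hb' := (b_pos (by positivity : 0 ≤ x + 1)).ne'
  have hb2 : 4 + 4 * x⁻¹ + 3 / 4 * x⁻¹ ^ 2 = b x / x ^ 2 := by
    unfold b
    field_simp
    ring
  have hb3 : 4 + 12 * x⁻¹ + 35 / 4 * x⁻¹ ^ 2 = b (x + 1) / x ^ 2 := by
    unfold b
    field_simp
    ring
  have hb4 : e x - e (x + 1) = (8 / 3 * x ^ 2 + 46 / 9 * x + 35 / 18) / (b x * b (x + 1)) := by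
    unfold e
    rw [div_sub_div _ _ hb hb']
    congr 1
    unfold b
    ring
  simp only [Function.comp]
  rw [hb2, hb3, hb4]
  have hb5 : 8 / 3 + 46 / 9 * x⁻¹ + 35 / 18 * x⁻¹ ^ 2 =
      (8 / 3 * x ^ 2 + 46 / 9 * x + 35 / 18) / x ^ 2 := by
    field_simp
  rw [hb5]
  generalize 8 / 3 * x ^ 2 + 46 / 9 * x + 35 / 18 = w
  field_simp

theorem lim_r : Tendsto r atTop (𝓝 1) := by
  have h1 := lim_e.mul tendsto_inv_atTop_zero
  have h2 : Tendsto (fun x : ℝ => 1 - x * e x * x⁻¹) atTop (𝓝 (1 - 1 / 6 * 0)) :=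
    tendsto_const_nhds.sub h1
  rw [mul_zero, sub_zero] at h2
  refine h2.congr' ?_
  filter_upwards [eventually_gt_atTop 0] with x hx
  rw [r_e hx.le]
  field_simp

theorem R_e {x y : ℝ} (hx : 0 ≤ x) (hy : 0 ≤ y) : R x y =
    ((e (x + y) - e (x + y + 1)) + (e x + e y) * e (x + y + 1) - e (x + y) * e (x + y + 1) -
      e x * e y) / (r (x + y) * r (x + y + 1)) := by
  have h3 := (r_pos (add_nonneg hx hy)).ne'
  have h4 := (r_pos (by positivity : 0 ≤ x + y + 1)).ne'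
  unfold R
  rw [eq_div_iff (mul_ne_zero h3 h4)]
  have e1 : ((r x + r y) / r (x + y) - 1 - r x * r y / (r (x + y) * r (x + y + 1))) *
      (r (x + y) * r (x + y + 1)) =
      (r x + r y) * r (x + y + 1) - r (x + y) * r (x + y + 1) - r x * r y := by
    field_simp
  rw [e1, r_e hx, r_e hy, r_e (add_nonneg hx hy), r_e (by positivity : 0 ≤ x + y + 1)]
  ring

end P

theorem t_P1 : S_P1 := by
  intro k l
  have hk : (0 : ℝ) ≤ k := Nat.cast_nonneg k
  have hl : (0 : ℝ) ≤ l := Nat.cast_nonneg l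
  rw [P.pp_eq]
  refine ⟨mul_nonneg (P.U_pos k l).le (P.R_nonneg hk hl), ?_⟩
  rw [div_eq_mul_one_div]
  exact mul_le_mul_of_nonneg_left (P.R_le hk hl) (P.U_pos k l).le

theorem t_P2 : S_P2 := by
  intro t k l ht0 ht1 hs hτ
  have hs' : Tendsto (fun n => (k n : ℝ) + l n) atTop atTop := by
    have := tendsto_natCast_atTop_atTop (R := ℝ).comp hs
    refine this.congr fun n => ?_
    simp
  have hspos : ∀ᶠ n in atTop, (0 : ℝ) < (k n : ℝ) + l n := hs'.eventually_gt_atTop 0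
  have hl' : Tendsto (fun n => (l n : ℝ)) atTop atTop := by
    have := hs'.atTop_mul_pos ht0 hτ
    refine this.congr' ?_
    filter_upwards [hspos] with n hn
    field_simp
  have hκ : Tendsto (fun n => (k n : ℝ) / ((k n : ℝ) + l n)) atTop (𝓝 (1 - t)) := by
    have := (tendsto_const_nhds (x := (1 : ℝ))).sub hτ
    refine this.congr' ?_
    filter_upwards [hspos] with n hn
    field_simp
    ring
  have hk' : Tendsto (fun n => (k n : ℝ)) atTop atTop := by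
    have := hs'.atTop_mul_pos (by linarith : 0 < 1 - t) hκ
    refine this.congr' ?_
    filter_upwards [hspos] with n hn
    field_simp
  have hs1 : Tendsto (fun n => (k n : ℝ) + l n + 1) atTop atTop :=
    tendsto_atTop_add_const_right _ 1 hs'
  have kpos : ∀ᶠ n in atTop, (0 : ℝ) < k n := hk'.eventually_gt_atTop 0
  have lpos : ∀ᶠ n in atTop, (0 : ℝ) < l n := hl'.eventually_gt_atTop 0
  have L1 := P.lim_d.comp hs'
  have Lk := P.lim_e.comp hk'
  have Ll := P.lim_e.comp hl'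
  have Ls := P.lim_e.comp hs'
  have Ls1 := P.lim_e.comp hs1
  have Lr := P.lim_r.comp hs'
  have Lr1 := P.lim_r.comp hs1
  have hq : Tendsto (fun n => ((k n : ℝ) + l n) / ((k n : ℝ) + l n + 1)) atTop (𝓝 1) := by
    have h1 : Tendsto (fun n => 1 - ((k n : ℝ) + l n + 1)⁻¹) atTop (𝓝 (1 - 0)) :=
      tendsto_const_nhds.sub (tendsto_inv_atTop_zero.comp hs1)
    rw [sub_zero] at h1
    refine h1.congr' ?_
    filter_upwards [hspos] with n hn
    field_simp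
    ring
  have hki : Tendsto (fun n => ((k n : ℝ) / ((k n : ℝ) + l n))⁻¹) atTop (𝓝 (1 - t)⁻¹) :=
    hκ.inv₀ (by linarith)
  have hli : Tendsto (fun n => ((l n : ℝ) / ((k n : ℝ) + l n))⁻¹) atTop (𝓝 t⁻¹) :=
    hτ.inv₀ ht0.ne'
  have key := (((L1.add (((Lk.mul hki).add (Ll.mul hli)).mul (Ls1.mul hq))).sub
    (Ls.mul (Ls1.mul hq))).sub ((Lk.mul hki).mul (Ll.mul hli))).div (Lr.mul Lr1) (by norm_num)
  have hval : (1 / 6 + (1 / 6 * (1 - t)⁻¹ + 1 / 6 * t⁻¹) * (1 / 6 * 1) - 1 / 6 * (1 / 6 * 1) -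
      1 / 6 * (1 - t)⁻¹ * (1 / 6 * t⁻¹)) / (1 * 1) = (5 / 36 : ℝ) := by
    have h1 : (1 - t) ≠ 0 := by linarith
    have h2 : t ≠ 0 := ht0.ne'
    field_simp
    ring
  rw [hval] at key
  refine key.congr' ?_
  filter_upwards [hspos, kpos, lpos] with n hn hkn hln
  have hU := (P.U_pos (k n) (l n)).ne'
  rw [P.pp_eq, mul_div_cancel_left₀ _ hU, P.R_e hkn.le hln.le]
  simp only [Function.comp, Pi.div_apply]
  have hr1 := (P.r_pos hn.le).ne'
  have hr2 := (P.r_pos (by positivity : (0 : ℝ) ≤ (k n : ℝ) + l n + 1)).ne'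
  generalize P.e (k n : ℝ) = ek at *
  generalize P.e (l n : ℝ) = el at *
  generalize P.e ((k n : ℝ) + l n) = es at *
  generalize P.e ((k n : ℝ) + l n + 1) = et at *
  generalize P.r ((k n : ℝ) + l n) = rs at *
  generalize P.r ((k n : ℝ) + l n + 1) = rt at *
  have hn1 : (k n : ℝ) + l n + 1 ≠ 0 := by positivity
  field_simp

end Pool.Agent.H966.N6
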