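import Pool.Agent.H966.N6.Stm

/-!
# Task N6-R (helper966): the law of the position for a given width
-/

set_option autoImplicit false

namespace Pool.Agent.H966.N6

open MeasureTheory Filter Topology Finset

namespace R

/-- the index of the cell of `t` -/
noncomputable def mm (w : ℕ) (t : ℝ) : ℕ := ⌈(w : ℝ) * t⌉₊ - 1

lemma mm_eq {w : ℕ} (hw : 1 ≤ w) {l : ℕ} {t : ℝ} (h1 : (l : ℝ) / w < t) (h2 : t ≤ ((l : ℝ) + 1) / w) :
    mm w t = l := by
  have hw0 : (0 : ℝ) < w := by exact_mod_cast hw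
  rw [div_lt_iff₀ hw0] at h1
  rw [le_div_iff₀ hw0] at h2
  have h3 : ⌈(w : ℝ) * t⌉₊ = l + 1 := by
    rw [Nat.ceil_eq_iff (by omega)]
    constructor
    · push_cast
      linarith
    · push_cast
      linarith
  unfold mm
  rw [h3]
  rfl

lemma mm_bounds {w : ℕ} (hw : 1 ≤ w) {t : ℝ} (h1 : 0 < t) (h2 : t ≤ 1) :
    (mm w t : ℝ) < w * t ∧ (w : ℝ) * t ≤ mm w t + 1 ∧ mm w t < w := by
  have hw0 : (0 : ℝ) < w := by exact_mod_cast hw
  have h0 : 0 < (w : ℝ) * t := mul_pos hw0 h1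
  have hc : 0 < ⌈(w : ℝ) * t⌉₊ := Nat.ceil_pos.2 h0
  have h3 : ((mm w t + 1 : ℕ) : ℝ) = (⌈(w : ℝ) * t⌉₊ : ℝ) := by
    unfold mm
    rw [Nat.sub_add_cancel hc]
  have h4 := Nat.le_ceil ((w : ℝ) * t)
  have h5 := Nat.ceil_lt_add_one h0.le
  have h6 : ⌈(w : ℝ) * t⌉₊ ≤ w := Nat.ceil_le.2 (by nlinarith)
  push_cast at h3
  refine ⟨by linarith, by linarith, ?_⟩
  unfold mm
  omega

lemma meas_mm (w : ℕ) (g : ℕ → ℝ) : Measurable (fun t : ℝ => g (mm w t)) := by
  have h1 : Measurable (fun t : ℝ => ⌈(w : ℝ) * t⌉₊) :=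
    Nat.measurable_ceil.comp (measurable_const.mul measurable_id)
  have h2 : Measurable (fun n : ℕ => g (n - 1)) := measurable_from_nat
  exact h2.comp h1

/-- the integral of the step function -/
lemma int_step {w : ℕ} (hw : 1 ≤ w) (g : ℕ → ℝ) :
    ∫ t in (0 : ℝ)..1, g (mm w t) = ∑ l ∈ range w, 1 / (w : ℝ) * g l := by
  have hw0 : (0 : ℝ) < w := by exact_mod_cast hw
  have hle : ∀ l : ℕ, (l : ℝ) / w ≤ ((l + 1 : ℕ) : ℝ) / w := by
    intro l
    apply div_le_div_of_nonneg_right _ hw0.le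
    push_cast
    linarith
  have hcon : ∀ l : ℕ, ∀ t ∈ Set.Ioc ((l : ℝ) / w) (((l + 1 : ℕ) : ℝ) / w), g (mm w t) = g l := by
    intro l t ht
    rw [mm_eq hw ht.1 (by have := ht.2; push_cast at this; exact this)]
  have hint : ∀ l : ℕ, IntervalIntegrable (fun t => g (mm w t)) volume ((l : ℝ) / w)
      (((l + 1 : ℕ) : ℝ) / w) := by
    intro l
    rw [intervalIntegrable_iff_integrableOn_Ioc_of_le (hle l)]
    have h1 : IntegrableOn (fun _ : ℝ => g l) (Set.Ioc ((l : ℝ) / w) (((l + 1 : ℕ) : ℝ) / w)) :=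
      integrableOn_const (by simp) (by simp)
    exact h1.congr_fun (fun t ht => (hcon l t ht).symm) measurableSet_Ioc
  have hsum := intervalIntegral.sum_integral_adjacent_intervals (f := fun t => g (mm w t))
    (μ := volume) (a := fun l : ℕ => (l : ℝ) / w) (n := w) (fun k _ => hint k)
  simp only [Nat.cast_zero, zero_div, div_self hw0.ne'] at hsum
  rw [← hsum]
  refine Finset.sum_congr rfl fun l _ => ?_
  rw [intervalIntegral.integral_of_le (hle l), setIntegral_congr_fun measurableSet_Ioc (hcon l)]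
  rw [setIntegral_const]
  simp only [Measure.real, Real.volume_Ioc, smul_eq_mul]
  rw [ENNReal.toReal_ofReal (sub_nonneg.2 (hle l))]
  congr 1
  push_cast
  field_simp
  ring

/-- the dominating function -/
noncomputable def bnd (C : ℝ) (t : ℝ) : ℝ := 4 * C * (t ^ (-(1:ℝ)/6) + (1 - t) ^ (-(1:ℝ)/6))

lemma bnd_int (C : ℝ) : IntegrableOn (bnd C) (Set.Ioo 0 1) := by
  have h1 : IntervalIntegrable (fun t : ℝ => t ^ (-(1:ℝ)/6)) volume 0 1 :=
    intervalIntegral.intervalIntegrable_rpow' (by norm_num)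
  have h2 : IntervalIntegrable (fun t : ℝ => (1 - t) ^ (-(1:ℝ)/6)) volume 0 1 := by
    have h3 := (h1.comp_sub_left 1).symm
    simpa using h3
  have h4 := (h1.add h2).const_mul (4 * C)
  have h5 := (intervalIntegrable_iff_integrableOn_Ioc_of_le (zero_le_one)).1 h4
  exact h5.mono_set Set.Ioo_subset_Ioc_self

lemma two_rpow_bound {x : ℝ} (hx : 1 / 2 ≤ x) : x ^ (-(1:ℝ)/6) ≤ 2 := by
  have h1 : x ^ (-(1:ℝ)/6) ≤ (1 / 2 : ℝ) ^ (-(1:ℝ)/6) :=
    Real.rpow_le_rpow_of_nonpos (by norm_num) hx (by norm_num)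
  have h2 : (1 / 2 : ℝ) ^ (-(1:ℝ)/6) ≤ (1 / 2 : ℝ) ^ (-(1:ℝ)) :=
    Real.rpow_le_rpow_of_exponent_ge (by norm_num) (by norm_num) (by norm_num)
  have h3 : (1 / 2 : ℝ) ^ (-(1:ℝ)) = 2 := by
    rw [Real.rpow_neg_one]
    norm_num
  linarith

lemma prod_bound {t : ℝ} (h0 : 0 < t) (h1 : t < 1) :
    t ^ (-(1:ℝ)/6) * (1 - t) ^ (-(1:ℝ)/6) ≤ 2 * (t ^ (-(1:ℝ)/6) + (1 - t) ^ (-(1:ℝ)/6)) := by
  have a1 : 0 ≤ t ^ (-(1:ℝ)/6) := Real.rpow_nonneg h0.le _
  have a2 : 0 ≤ (1 - t) ^ (-(1:ℝ)/6) := Real.rpow_nonneg (by linarith) _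
  rcases le_total (1 / 2) t with h | h
  · have := two_rpow_bound h
    nlinarith
  · have := two_rpow_bound (x := 1 - t) (by linarith)
    nlinarith

theorem core (pp : ℕ → ℕ → ℝ) (d : ℝ → ℝ) (h0 : ∀ k l, 0 ≤ pp k l)
    (hlim : ∀ (t : ℝ) (k l : ℕ → ℕ), 0 < t → t < 1 → Tendsto (fun n => k n + l n) atTop atTop →
      Tendsto (fun n => (l n : ℝ) / ((k n : ℝ) + l n)) atTop (𝓝 t) →
      Tendsto (fun n => pp (k n) (l n) * ((k n : ℝ) + l n)^((13:ℝ)/6)) atTop (𝓝 (d t)))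
    (C : ℝ) (hC : 0 < C) (hbd : ∀ k l : ℕ, pp k l * ((k:ℝ)+l+1)^((13:ℝ)/6) ≤
      C * (((l:ℝ)+1)/((k:ℝ)+l+1))^(-(1:ℝ)/6) * (((k:ℝ)+1)/((k:ℝ)+l+1))^(-(1:ℝ)/6))
    (s : ℝ) (hs0 : 0 ≤ s) (hs1 : s ≤ 1) :
    Tendsto (fun w : ℕ => (w:ℝ)^((7:ℝ)/6) *
      ∑ l ∈ (range (w+1)).filter (fun l : ℕ => (l:ℝ) ≤ s * w), pp (w-l) l) atTop
      (𝓝 (∫ t in (0:ℝ)..s, d t)) := by
  set g : ℕ → ℕ → ℝ := fun w l => (w:ℝ)^((13:ℝ)/6) * (if (l:ℝ) ≤ s * w then pp (w-l) l else 0) with hg
  have hg0 : ∀ w l, 0 ≤ g w l := by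
    intro w l
    rw [hg]
    have := h0 (w - l) l
    dsimp only
    split_ifs
    · positivity
    · simp
  -- the integrals converge
  have hmain : Tendsto (fun w : ℕ => ∫ t in Set.Ioo (0:ℝ) 1, g w (mm w t)) atTop
      (𝓝 (∫ t in Set.Ioo (0:ℝ) 1, (Set.Iio s).indicator d t)) := by
    refine tendsto_integral_filter_of_dominated_convergence (bnd C) ?_ ?_ (bnd_int C) ?_
    · exact Filter.Eventually.of_forall fun w => (meas_mm w (g w)).aestronglyMeasurable
    · filter_upwards [eventually_ge_atTop 1] with w hw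
      rw [ae_restrict_iff' measurableSet_Ioo]
      refine Filter.Eventually.of_forall fun t ht => ?_
      obtain ⟨ht0, ht1⟩ := ht
      obtain ⟨b1, b2, b3⟩ := mm_bounds hw ht0 ht1.le
      set m := mm w t with hm
      have hw0 : (0 : ℝ) < w := by exact_mod_cast hw
      rw [Real.norm_of_nonneg (hg0 w m)]
      have hcast : ((w - m : ℕ) : ℝ) = (w : ℝ) - m := by
        rw [Nat.cast_sub b3.le]
      have h1 : g w m ≤ (w:ℝ)^((13:ℝ)/6) * pp (w - m) m := by
        rw [hg]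
        dsimp only
        apply mul_le_mul_of_nonneg_left _ (by positivity)
        split_ifs
        · exact le_rfl
        · exact h0 _ _
      have h2 : (w:ℝ)^((13:ℝ)/6) * pp (w - m) m ≤
          pp (w - m) m * (((w - m : ℕ):ℝ)+m+1)^((13:ℝ)/6) := by
        rw [mul_comm]
        apply mul_le_mul_of_nonneg_left _ (h0 _ _)
        apply Real.rpow_le_rpow hw0.le _ (by norm_num)
        rw [hcast]
        linarith
      have h3 := hbd (w - m) m
      have e1 : ((w - m : ℕ):ℝ)+m+1 = (w:ℝ) + 1 := by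
        rw [hcast]
        ring
      rw [e1] at h2 h3
      have hw1 : (0:ℝ) < (w:ℝ) + 1 := by linarith
      have hm0 : (0:ℝ) ≤ m := Nat.cast_nonneg m
      have h4 : (((m:ℝ)+1)/((w:ℝ)+1))^(-(1:ℝ)/6) ≤ (t / 2) ^ (-(1:ℝ)/6) := by
        apply Real.rpow_le_rpow_of_nonpos (by positivity) _ (by norm_num)
        rw [le_div_iff₀ hw1]
        have hw1' : (1:ℝ) ≤ w := by exact_mod_cast hw
        nlinarith
      have h5 : ((((w - m : ℕ):ℝ)+1)/((w:ℝ)+1))^(-(1:ℝ)/6) ≤ (1 - t) ^ (-(1:ℝ)/6) := by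
        apply Real.rpow_le_rpow_of_nonpos (by linarith) _ (by norm_num)
        rw [le_div_iff₀ hw1, hcast]
        nlinarith
      have h6 : (t / 2) ^ (-(1:ℝ)/6) ≤ 2 * t ^ (-(1:ℝ)/6) := by
        have e2 : t / 2 = t * (1 / 2) := by ring
        rw [e2, Real.mul_rpow ht0.le (by norm_num)]
        have h7 := two_rpow_bound (x := 1 / 2) le_rfl
        have h8 : 0 ≤ t ^ (-(1:ℝ)/6) := Real.rpow_nonneg ht0.le _
        nlinarith
      have a1 : 0 ≤ t ^ (-(1:ℝ)/6) := Real.rpow_nonneg ht0.le _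
      have a2 : 0 ≤ (1 - t) ^ (-(1:ℝ)/6) := Real.rpow_nonneg (by linarith) _
      have a3 : 0 ≤ (((m:ℝ)+1)/((w:ℝ)+1))^(-(1:ℝ)/6) := Real.rpow_nonneg (by positivity) _
      have a4 : 0 ≤ ((((w - m : ℕ):ℝ)+1)/((w:ℝ)+1))^(-(1:ℝ)/6) := Real.rpow_nonneg (by positivity) _
      have h9 : C * (((m:ℝ)+1)/((w:ℝ)+1))^(-(1:ℝ)/6) * ((((w - m : ℕ):ℝ)+1)/((w:ℝ)+1))^(-(1:ℝ)/6) ≤
          C * (2 * t ^ (-(1:ℝ)/6)) * (1 - t) ^ (-(1:ℝ)/6) := by
        apply mul_le_mul _ h5 a4 (by positivity)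
        exact mul_le_mul_of_nonneg_left (h4.trans h6) hC.le
      have h10 := mul_le_mul_of_nonneg_left (prod_bound ht0 ht1) (by positivity : 0 ≤ 2 * C)
      unfold bnd
      nlinarith
    · rw [ae_restrict_iff' measurableSet_Ioo]
      have hne : ∀ᵐ t : ℝ, t ≠ s := by
        simp [ae_iff, measure_singleton]
      filter_upwards [hne] with t hts ht
      obtain ⟨ht0, ht1⟩ := ht
      rcases lt_or_gt_of_ne hts with h | h
      · rw [Set.indicator_of_mem (show t ∈ Set.Iio s from h)]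
        have hk : Tendsto (fun w : ℕ => (w - mm w t) + mm w t) atTop atTop := by
          refine tendsto_id.congr' ?_
          filter_upwards [eventually_ge_atTop 1] with w hw
          have := (mm_bounds hw ht0 ht1.le).2.2
          simp only [id]
          omega
        have hr : Tendsto (fun w : ℕ => (mm w t : ℝ) / (((w - mm w t : ℕ) : ℝ) + mm w t)) atTop (𝓝 t) := by
          have l1 : Tendsto (fun w : ℕ => t - 1 / (w : ℝ)) atTop (𝓝 t) := by
            have := (tendsto_const_div_atTop_nhds_zero_nat (1 : ℝ)).const_sub t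
            simpa using this
          refine tendsto_of_tendsto_of_tendsto_of_le_of_le' l1 tendsto_const_nhds ?_ ?_
          · filter_upwards [eventually_ge_atTop 1] with w hw
            obtain ⟨b1, b2, b3⟩ := mm_bounds hw ht0 ht1.le
            have hw0 : (0 : ℝ) < w := by exact_mod_cast hw
            rw [Nat.cast_sub b3.le, sub_add_cancel, le_div_iff₀ hw0, sub_mul,
              one_div_mul_cancel hw0.ne']
            linarith
          · filter_upwards [eventually_ge_atTop 1] with w hw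
            obtain ⟨b1, b2, b3⟩ := mm_bounds hw ht0 ht1.le
            have hw0 : (0 : ℝ) < w := by exact_mod_cast hw
            rw [Nat.cast_sub b3.le, sub_add_cancel, div_le_iff₀ hw0]
            linarith
        refine (hlim t (fun w => w - mm w t) (fun w => mm w t) ht0 ht1 hk hr).congr' ?_
        filter_upwards [eventually_ge_atTop 1] with w hw
        obtain ⟨b1, b2, b3⟩ := mm_bounds hw ht0 ht1.le
        have hw0 : (0 : ℝ) < w := by exact_mod_cast hw
        have hle : (mm w t : ℝ) ≤ s * w := by nlinarith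
        rw [hg]
        dsimp only
        rw [if_pos hle, Nat.cast_sub b3.le, sub_add_cancel, mul_comm]
      · rw [Set.indicator_of_notMem (show t ∉ Set.Iio s from not_lt.2 h.le)]
        have hbig : ∀ᶠ w : ℕ in atTop, 1 < (w : ℝ) * (t - s) := by
          have h1 : Tendsto (fun w : ℕ => (w : ℝ) * (t - s)) atTop atTop :=
            tendsto_natCast_atTop_atTop.atTop_mul_const (by linarith)
          exact h1.eventually_gt_atTop 1
        refine tendsto_const_nhds.congr' ?_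
        filter_upwards [eventually_ge_atTop 1, hbig] with w hw hw2
        obtain ⟨b1, b2, b3⟩ := mm_bounds hw ht0 ht1.le
        rw [hg]
        dsimp only
        rw [if_neg (by push Not; nlinarith), mul_zero]
  -- the limit integral
  have hlimint : ∫ t in Set.Ioo (0:ℝ) 1, (Set.Iio s).indicator d t = ∫ t in (0:ℝ)..s, d t := by
    have hset : Set.Ioo (0:ℝ) 1 ∩ Set.Iio s = Set.Ioo 0 s := by
      ext x
      constructor
      · rintro ⟨⟨h1, -⟩, h3⟩
        exact ⟨h1, h3⟩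
      · rintro ⟨h1, h2⟩
        exact ⟨⟨h1, lt_of_lt_of_le h2 hs1⟩, h2⟩
    rw [setIntegral_indicator measurableSet_Iio, hset, intervalIntegral.integral_of_le hs0,
      integral_Ioc_eq_integral_Ioo]
  rw [hlimint] at hmain
  -- the last term
  have hlast : Tendsto (fun w : ℕ => (w:ℝ)^((7:ℝ)/6) * (if ((w:ℕ):ℝ) ≤ s * w then pp (w - w) w else 0))
      atTop (𝓝 0) := by
    have h1 : Tendsto (fun w : ℕ => C * ((w:ℝ) + 1) ^ (-(5:ℝ)/6)) atTop (𝓝 (C * 0)) := by
      refine Tendsto.const_mul C ?_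
      have h2 : Tendsto (fun x : ℝ => x ^ (-((5:ℝ)/6))) atTop (𝓝 0) :=
        tendsto_rpow_neg_atTop (by norm_num)
      have h3 : Tendsto (fun w : ℕ => (w:ℝ) + 1) atTop atTop :=
        tendsto_atTop_add_const_right _ _ tendsto_natCast_atTop_atTop
      have h4 := h2.comp h3
      refine h4.congr fun w => ?_
      simp only [Function.comp_apply]
      norm_num
    rw [mul_zero] at h1
    refine tendsto_of_tendsto_of_tendsto_of_le_of_le tendsto_const_nhds h1 ?_ ?_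
    · intro w
      have := h0 (w - w) w
      dsimp only
      split_ifs
      · positivity
      · simp
    · intro w
      have hw1 : (0:ℝ) < (w:ℝ) + 1 := by positivity
      have h2 : pp 0 w ≤ C * ((w:ℝ) + 1) ^ (-(2:ℝ)) := by
        have h3 := hbd 0 w
        have e1 : (((0:ℕ):ℝ) + w + 1) = (w:ℝ) + 1 := by push_cast; ring
        rw [e1, div_self hw1.ne', Real.one_rpow, mul_one] at h3
        have e2 : (((0:ℕ):ℝ) + 1) / ((w:ℝ) + 1) = ((w:ℝ) + 1)⁻¹ := by
          push_cast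
          rw [zero_add, one_div]
        rw [e2, Real.inv_rpow hw1.le, ← Real.rpow_neg hw1.le] at h3
        have h4 : 0 < ((w:ℝ) + 1) ^ ((13:ℝ)/6) := Real.rpow_pos_of_pos hw1 _
        have h5 : pp 0 w ≤ C * ((w:ℝ) + 1) ^ (-(-(1:ℝ)/6)) / ((w:ℝ) + 1) ^ ((13:ℝ)/6) := by
          rwa [le_div_iff₀ h4]
        have h6 : C * ((w:ℝ) + 1) ^ (-(-(1:ℝ)/6)) / ((w:ℝ) + 1) ^ ((13:ℝ)/6) =
            C * ((w:ℝ) + 1) ^ (-(2:ℝ)) := by
          rw [mul_div_assoc, ← Real.rpow_sub hw1]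
          norm_num
        rwa [h6] at h5
      have h7 : (w:ℝ)^((7:ℝ)/6) * (if ((w:ℕ):ℝ) ≤ s * w then pp (w - w) w else 0) ≤
          ((w:ℝ) + 1)^((7:ℝ)/6) * (C * ((w:ℝ) + 1) ^ (-(2:ℝ))) := by
        have h8 : (w:ℝ)^((7:ℝ)/6) ≤ ((w:ℝ) + 1)^((7:ℝ)/6) :=
          Real.rpow_le_rpow (by positivity) (by linarith) (by norm_num)
        have h9 : (if ((w:ℕ):ℝ) ≤ s * w then pp (w - w) w else 0) ≤ C * ((w:ℝ) + 1) ^ (-(2:ℝ)) := by
          rw [Nat.sub_self]
          split_ifs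
          · exact h2
          · positivity
        have h10 : 0 ≤ (if ((w:ℕ):ℝ) ≤ s * w then pp (w - w) w else 0) := by
          split_ifs
          · exact h0 _ _
          · exact le_rfl
        exact mul_le_mul h8 h9 h10 (by positivity)
      have h11 : ((w:ℝ) + 1)^((7:ℝ)/6) * (C * ((w:ℝ) + 1) ^ (-(2:ℝ))) =
          C * ((w:ℝ) + 1) ^ (-(5:ℝ)/6) := by
        rw [mul_left_comm, ← Real.rpow_add hw1]
        norm_num
      rw [h11] at h7
      exact h7
  -- conclusion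
  have hsum := hmain.add hlast
  rw [add_zero] at hsum
  refine hsum.congr' ?_
  filter_upwards [eventually_ge_atTop 1] with w hw
  have hw0 : (0 : ℝ) < w := by exact_mod_cast hw
  have e1 : ∫ t in Set.Ioo (0:ℝ) 1, g w (mm w t) = ∑ l ∈ range w, 1 / (w : ℝ) * g w l := by
    rw [← int_step hw (g w), intervalIntegral.integral_of_le zero_le_one, integral_Ioc_eq_integral_Ioo]
  rw [e1, Finset.sum_filter, Finset.sum_range_succ, mul_add]
  congr 1
  rw [Finset.mul_sum]
  refine Finset.sum_congr rfl fun l _ => ?_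
  rw [hg]
  dsimp only
  rw [← mul_assoc]
  congr 1
  rw [one_div, ← Real.rpow_neg_one, ← Real.rpow_add hw0]
  norm_num

end R

/-- the law of the position for a given width -/
theorem t_R : S_R := by
  intro h1 hlim hbd s hs0 hs1
  obtain ⟨C, hC, hb⟩ := hbd
  exact R.core pp dens (fun k l => (h1 k l).1) hlim C hC hb s hs0 hs1

end Pool.Agent.H966.N6
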