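import Pool.Agent.H965.Both.Asy

/-!
The horizontal extents of the open cluster of the tip of a slit (helper966): statements of the
tasks (nothing is proved here).
-/

set_option autoImplicit false

namespace Pool.Agent.H966.N6

open Pool.Agent.H988R2.Perc hiding X
open Pool.Agent.H965.Both (kap)
open Pool.Agent.H981R2.TP (tipFormula)
open MeasureTheory Filter Topology Finset Relation

/-! ## The cluster of the tip -/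

/-- open edges of the slit plane: the edges at the heights `≥ 0` that touch the column `0` are removed
(the column of `(u,v)` is `u - v`, the height `u + v`) -/
def SAdj (ω : Conf) (x y : ℤ × ℤ) : Prop :=
  OpenAdj ω x y ∧ ¬ (0 ≤ x.1 + x.2 ∧ 0 ≤ y.1 + y.2 ∧ (x.1 - x.2 = 0 ∨ y.1 - y.2 = 0))

/-- `y` is in the cluster of the tip `(0,0)` -/
def Cl (ω : Conf) (y : ℤ × ℤ) : Prop := ReflTransGen (SAdj ω) (0, 0) y

/-- the cluster reaches the column `-2k` -/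
def RL (k : ℕ) : Set Conf := {ω | ∃ y, Cl ω y ∧ y.1 - y.2 ≤ -(2*(k:ℤ))}

/-- the cluster reaches the column `2l` -/
def RR (l : ℕ) : Set Conf := {ω | ∃ y, Cl ω y ∧ 2*(l:ℤ) ≤ y.1 - y.2}

/-- TASK G, part 1 -/
def S_Geo : Prop := ∀ k l : ℕ, 1 ≤ k → 1 ≤ l →
  perc.real (RL k ∪ RR l) = tipFormula (2*k-1) (2*l-1)

/-- TASK G, part 2 -/
def S_Meas : Prop := (∀ k, MeasurableSet (RL k)) ∧ (∀ l, MeasurableSet (RR l))

/-! ## The formula -/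

/-- `∏_{i<2k} (i+1/3)/(i+1/2)` -/
noncomputable def G (k : ℕ) : ℝ := ∏ i ∈ range (2*k), (((i:ℝ) + 1/3) / ((i:ℝ) + 1/2))

/-- TASK E -/
def S_Ex : Prop := ∀ k l : ℕ, 1 ≤ k → 1 ≤ l →
  tipFormula (2*k-1) (2*l-1) = G k * G l / G (k+l)

noncomputable def U (k l : ℕ) : ℝ := G k * G l / G (k+l)

/-- the probability that the leftmost column is `-2k` or `-2k-1`, the rightmost `2l` or `2l+1` -/
noncomputable def pp (k l : ℕ) : ℝ := U k (l+1) + U (k+1) l - U k l - U (k+1) (l+1)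

/-- the extents are `k`, `l` (in units of two columns) -/
def Win (k l : ℕ) : Set Conf := {ω | ω ∈ RL k ∧ ω ∉ RL (k+1) ∧ ω ∈ RR l ∧ ω ∉ RR (l+1)}

/-- TASK W, part 1 -/
def S_W1 : Prop := S_Geo → S_Meas → S_Ex → ∀ k l : ℕ, perc.real (RL k ∪ RR l) = U k l

/-- TASK W, part 2 -/
def S_W2 : Prop := S_Meas → (∀ k l : ℕ, perc.real (RL k ∪ RR l) = U k l) →
  ∀ k l : ℕ, perc.real (Win k l) = pp k l

/-- TASK A: asymptotics and bounds of `G` -/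
def S_A : Prop :=
  Tendsto (fun k : ℕ => G k * (k:ℝ)^((1:ℝ)/6)) atTop (𝓝 (kap * 2^(-(1:ℝ)/6))) ∧
  ∃ c C : ℝ, 0 < c ∧ 0 < C ∧ ∀ k : ℕ, c ≤ G k * ((k:ℝ)+1)^((1:ℝ)/6) ∧
    G k * ((k:ℝ)+1)^((1:ℝ)/6) ≤ C

/-- TASK M: the marginals -/
def S_M : Prop := S_A → S_Meas → (∀ k l : ℕ, perc.real (RL k ∪ RR l) = U k l) →
  (∀ k, perc.real (RL k) = G k) ∧ (∀ l, perc.real (RR l) = G l)

/-- TASK P, part 1: bound -/
def S_P1 : Prop := ∀ k l : ℕ, 0 ≤ pp k l ∧ pp k l ≤ U k l / ((k:ℝ)+l+1)^2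

/-- TASK P, part 2: limit of the quotient; `k/(k+l) → 1-t`, `l/(k+l) → t` -/
def S_P2 : Prop := ∀ (t : ℝ) (k l : ℕ → ℕ), 0 < t → t < 1 →
  Tendsto (fun n => k n + l n) atTop atTop →
  Tendsto (fun n => (l n : ℝ) / ((k n : ℝ) + l n)) atTop (𝓝 t) →
  Tendsto (fun n => pp (k n) (l n) / U (k n) (l n) * ((k n : ℝ) + l n)^2) atTop (𝓝 (5/36))

/-- the limit density of the position -/
noncomputable def dens (t : ℝ) : ℝ := 5/36 * (kap * 2^(-(1:ℝ)/6)) * (t*(1-t))^(-(1:ℝ)/6)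

/-- TASK D: the local limit theorem and the bound -/
def S_D : Prop := S_A → S_P1 → S_P2 →
  (∀ (t : ℝ) (k l : ℕ → ℕ), 0 < t → t < 1 → Tendsto (fun n => k n + l n) atTop atTop →
    Tendsto (fun n => (l n : ℝ) / ((k n : ℝ) + l n)) atTop (𝓝 t) →
    Tendsto (fun n => pp (k n) (l n) * ((k n : ℝ) + l n)^((13:ℝ)/6)) atTop (𝓝 (dens t))) ∧
  ∃ C : ℝ, 0 < C ∧ ∀ k l : ℕ,
    pp k l * ((k:ℝ)+l+1)^((13:ℝ)/6) ≤
      C * (((l:ℝ)+1)/((k:ℝ)+l+1))^(-(1:ℝ)/6) * (((k:ℝ)+1)/((k:ℝ)+l+1))^(-(1:ℝ)/6)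

/-- TASK R: the law of the position for a given width -/
def S_R : Prop := S_P1 →
  (∀ (t : ℝ) (k l : ℕ → ℕ), 0 < t → t < 1 → Tendsto (fun n => k n + l n) atTop atTop →
    Tendsto (fun n => (l n : ℝ) / ((k n : ℝ) + l n)) atTop (𝓝 t) →
    Tendsto (fun n => pp (k n) (l n) * ((k n : ℝ) + l n)^((13:ℝ)/6)) atTop (𝓝 (dens t))) →
  (∃ C : ℝ, 0 < C ∧ ∀ k l : ℕ,
    pp k l * ((k:ℝ)+l+1)^((13:ℝ)/6) ≤
      C * (((l:ℝ)+1)/((k:ℝ)+l+1))^(-(1:ℝ)/6) * (((k:ℝ)+1)/((k:ℝ)+l+1))^(-(1:ℝ)/6)) →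
  ∀ s : ℝ, 0 ≤ s → s ≤ 1 →
    Tendsto (fun w : ℕ => (w:ℝ)^((7:ℝ)/6) *
      ∑ l ∈ (range (w+1)).filter (fun l : ℕ => (l:ℝ) ≤ s * w), pp (w-l) l) atTop
      (𝓝 (∫ t in (0:ℝ)..s, dens t))

/-- TASK Z: tails -/
def S_Z : Prop := ∀ (q : ℕ → ℝ) (D : ℝ), (∀ w, 0 ≤ q w) → Summable q →
  Tendsto (fun w : ℕ => (w:ℝ)^((7:ℝ)/6) * q w) atTop (𝓝 D) →
  Tendsto (fun N : ℕ => (N:ℝ)^((1:ℝ)/6) * ∑' w, q (w + N)) atTop (𝓝 (6*D))

end Pool.Agent.H966.N6
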