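import Pool.Agent.H966.N6.Stm

/-!
Probabilities of windows and marginals (tasks W1, W2, M; helper345 for helper966).
-/

set_option autoImplicit false

namespace Pool.Agent.H966.N6

open Pool.Agent.H988R2.Perc hiding X
open Pool.Agent.H965.Both (kap)
open Pool.Agent.H981R2.TP (tipFormula)
open MeasureTheory Filter Topology Finset Relation

namespace W

theorem G_zero : G 0 = 1 := by
  unfold G
  rw [mul_zero, Finset.range_zero, Finset.prod_empty]

theorem G_pos (k : ℕ) : 0 < G k := Finset.prod_pos fun i _ => by positivity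

/-- the factors -/
noncomputable def rr (i : ℕ) : ℝ := ((i : ℝ) + 1 / 3) / ((i : ℝ) + 1 / 2)

theorem rr_pos (i : ℕ) : 0 < rr i := by
  unfold rr
  positivity

theorem G_succ (n : ℕ) : G (n + 1) = G n * (rr (2 * n) * rr (2 * n + 1)) := by
  unfold G rr
  rw [show 2 * (n + 1) = 2 * n + 1 + 1 by ring, Finset.prod_range_succ, Finset.prod_range_succ]
  ring

theorem rr_lim : Tendsto rr atTop (𝓝 1) := by
  have h1 : Tendsto (fun i : ℕ => 1 - (1 / 6 : ℝ) / ((i : ℝ) + 1 / 2)) atTop (𝓝 (1 - 0)) := by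
    refine Tendsto.const_sub _ ?_
    refine Tendsto.const_div_atTop ?_ _
    exact tendsto_atTop_add_const_right _ _ tendsto_natCast_atTop_atTop
  rw [sub_zero] at h1
  refine h1.congr fun i => ?_
  unfold rr
  have : (0 : ℝ) < (i : ℝ) + 1 / 2 := by positivity
  field_simp
  ring

theorem ratio (k : ℕ) : Tendsto (fun l => G l / G (k + l)) atTop (𝓝 1) := by
  induction k with
  | zero =>
    have : (fun l => G l / G (0 + l)) = fun _ => (1 : ℝ) := by
      funext l
      rw [zero_add, div_self (G_pos l).ne']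
    rw [this]
    exact tendsto_const_nhds
  | succ k ih =>
    have ht : Tendsto (fun l : ℕ => 2 * (k + l)) atTop atTop := by
      refine tendsto_atTop_mono (f := fun l : ℕ => l) (fun l => ?_) tendsto_id
      show l ≤ 2 * (k + l)
      omega
    have ht1 : Tendsto (fun l : ℕ => 2 * (k + l) + 1) atTop atTop := by
      refine tendsto_atTop_mono (f := fun l : ℕ => l) (fun l => ?_) tendsto_id
      show l ≤ 2 * (k + l) + 1
      omega
    have h1 := ih.mul (((rr_lim.comp ht).mul (rr_lim.comp ht1)).inv₀ (by norm_num))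
    rw [mul_one, inv_one, mul_one] at h1
    refine h1.congr fun l => ?_
    have e : k + 1 + l = (k + l) + 1 := by ring
    rw [e, G_succ, Function.comp_apply, Function.comp_apply, div_mul_eq_div_div, ← div_eq_mul_inv]

theorem G_lim (hA : S_A) : Tendsto G atTop (𝓝 0) := by
  have h1 : Tendsto (fun k : ℕ => (k : ℝ) ^ (-((1 : ℝ) / 6))) atTop (𝓝 0) :=
    (tendsto_rpow_neg_atTop (by norm_num)).comp tendsto_natCast_atTop_atTop
  have h2 := hA.1.mul h1
  rw [mul_zero] at h2
  refine h2.congr' ?_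
  filter_upwards [eventually_gt_atTop 0] with k hk
  have hk' : (0 : ℝ) < k := by exact_mod_cast hk
  rw [mul_assoc, ← Real.rpow_add hk']
  have : (1 : ℝ) / 6 + -((1 : ℝ) / 6) = 0 := by ring
  rw [this, Real.rpow_zero, mul_one]

theorem U_lim_right (k : ℕ) : Tendsto (fun l => U k l) atTop (𝓝 (G k)) := by
  have h := (ratio k).const_mul (G k)
  rw [mul_one] at h
  refine h.congr fun l => ?_
  unfold U
  rw [mul_div_assoc]

theorem U_lim_left (l : ℕ) : Tendsto (fun k => U k l) atTop (𝓝 (G l)) := by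
  refine (U_lim_right l).congr fun k => ?_
  unfold U
  rw [add_comm l k, mul_comm (G l)]

theorem RL_zero : RL 0 = Set.univ := by
  refine Set.eq_univ_of_forall fun ω => ⟨(0, 0), ReflTransGen.refl, ?_⟩
  simp

theorem RR_zero : RR 0 = Set.univ := by
  refine Set.eq_univ_of_forall fun ω => ⟨(0, 0), ReflTransGen.refl, ?_⟩
  simp

theorem RL_succ (k : ℕ) : RL (k + 1) ⊆ RL k := by
  rintro ω ⟨y, hy, h⟩
  refine ⟨y, hy, h.trans ?_⟩
  push_cast
  linarith

theorem RR_succ (l : ℕ) : RR (l + 1) ⊆ RR l := by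
  rintro ω ⟨y, hy, h⟩
  refine ⟨y, hy, le_trans ?_ h⟩
  push_cast
  linarith

theorem Win_eq (k l : ℕ) : Win k l =
    (RL k ∩ RR l) \ ((RL (k + 1) ∩ RR l) ∪ (RL k ∩ RR (l + 1))) := by
  ext ω
  have h1 := @RL_succ k ω
  have h2 := @RR_succ l ω
  constructor
  · rintro ⟨ha, hb, hc, hd⟩
    refine ⟨⟨ha, hc⟩, ?_⟩
    rintro (⟨h, _⟩ | ⟨_, h⟩)
    · exact hb h
    · exact hd h
  · rintro ⟨⟨ha, hc⟩, h⟩
    exact ⟨ha, fun hb => h (Or.inl ⟨hb, hc⟩), hc, fun hd => h (Or.inr ⟨ha, hd⟩)⟩

end W

open W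

theorem t_W1 : S_W1 := by
  intro hGeo _ hEx k l
  rcases Nat.eq_zero_or_pos k with hk | hk
  · subst hk
    rw [RL_zero, Set.univ_union, probReal_univ]
    unfold U
    rw [zero_add, G_zero, one_mul, div_self (G_pos l).ne']
  rcases Nat.eq_zero_or_pos l with hl | hl
  · subst hl
    rw [RR_zero, Set.union_univ, probReal_univ]
    unfold U
    rw [add_zero, G_zero, mul_one, div_self (G_pos k).ne']
  · rw [hGeo k l hk hl, hEx k l hk hl]
    rfl

theorem t_W2 : S_W2 := by
  intro hM hU k l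
  have inter : ∀ i j, perc.real (RL i ∩ RR j) = perc.real (RL i) + perc.real (RR j) - U i j := by
    intro i j
    have h := measureReal_union_add_inter (μ := perc) (s := RL i) (t := RR j) (hM.2 j)
    rw [hU i j] at h
    linarith
  have hm1 : MeasurableSet (RL (k + 1) ∩ RR l) := (hM.1 _).inter (hM.2 _)
  have hm2 : MeasurableSet (RL k ∩ RR (l + 1)) := (hM.1 _).inter (hM.2 _)
  have hsub : (RL (k + 1) ∩ RR l) ∪ (RL k ∩ RR (l + 1)) ⊆ RL k ∩ RR l := by
    rintro ω (⟨h1, h2⟩ | ⟨h1, h2⟩)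
    · exact ⟨RL_succ k h1, h2⟩
    · exact ⟨h1, RR_succ l h2⟩
  have h3 := measureReal_union_add_inter (μ := perc) (s := RL (k + 1) ∩ RR l)
    (t := RL k ∩ RR (l + 1)) hm2
  have h4 : (RL (k + 1) ∩ RR l) ∩ (RL k ∩ RR (l + 1)) = RL (k + 1) ∩ RR (l + 1) := by
    ext ω
    constructor
    · rintro ⟨⟨h1, _⟩, _, h2⟩
      exact ⟨h1, h2⟩
    · rintro ⟨h1, h2⟩
      exact ⟨⟨h1, RR_succ l h2⟩, RL_succ k h1, h2⟩
  rw [h4, inter, inter, inter] at h3
  rw [Win_eq, measureReal_sdiff hsub (hm1.union hm2), inter]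
  unfold pp
  linarith

theorem t_M : S_M := by
  intro hA _ hU
  have hG := G_lim hA
  have hR : ∀ l, perc.real (RR l) ≤ G l := fun l =>
    ge_of_tendsto' (U_lim_left l) fun k => by
      rw [← hU k l]
      exact measureReal_mono Set.subset_union_right
  have hL : ∀ k, perc.real (RL k) ≤ G k := fun k =>
    ge_of_tendsto' (U_lim_right k) fun l => by
      rw [← hU k l]
      exact measureReal_mono Set.subset_union_left
  have hUu : ∀ k l, U k l ≤ perc.real (RL k) + perc.real (RR l) := fun k l => by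
    rw [← hU k l]
    exact measureReal_union_le _ _
  refine ⟨fun k => le_antisymm (hL k) ?_, fun l => le_antisymm (hR l) ?_⟩
  · have h1 : Tendsto (fun l => perc.real (RL k) + G l) atTop (𝓝 (perc.real (RL k) + 0)) :=
      hG.const_add _
    rw [add_zero] at h1
    refine le_of_tendsto_of_tendsto' (U_lim_right k) h1 fun l => ?_
    have := hUu k l
    have := hR l
    linarith
  · have h1 : Tendsto (fun k => G k + perc.real (RR l)) atTop (𝓝 (0 + perc.real (RR l))) :=
      hG.add_const _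
    rw [zero_add] at h1
    refine le_of_tendsto_of_tendsto' (U_lim_left l) h1 fun k => ?_
    have := hUu k l
    have := hL k
    linarith

end Pool.Agent.H966.N6
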