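import Pool.Agent.H966.N6.Stm

/-! # Task Z: the tail of a series with regularly varying terms -/

set_option autoImplicit false

namespace Pool.Agent.H966.N6

open Filter Topology Finset

namespace Z

noncomputable def v (w : ℕ) : ℝ := (w:ℝ)^(-(1:ℝ)/6) - ((w:ℝ)+1)^(-(1:ℝ)/6)

theorem v_nonneg {w : ℕ} (hw : 1 ≤ w) : 0 ≤ v w := by
  unfold v
  have h0 : (0:ℝ) < w := by exact_mod_cast hw
  have := Real.rpow_le_rpow_of_nonpos h0 (by linarith : (w:ℝ) ≤ w + 1) (by norm_num : -(1:ℝ)/6 ≤ 0)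
  linarith

theorem v_eq {w : ℕ} (hw : 1 ≤ w) : (w:ℝ)^((7:ℝ)/6) * v w =
    -(((w:ℝ)⁻¹)⁻¹ * ((1 + (w:ℝ)⁻¹) ^ (-(1:ℝ)/6) - (1 + 0) ^ (-(1:ℝ)/6))) := by
  have h0 : (0:ℝ) < w := by exact_mod_cast hw
  unfold v
  have h1 : (w:ℝ)^((7:ℝ)/6) = w * (w:ℝ)^((1:ℝ)/6) := by
    rw [show (7:ℝ)/6 = 1 + 1/6 by norm_num, Real.rpow_add h0, Real.rpow_one]
  have h2 : (w:ℝ)^((1:ℝ)/6) * (w:ℝ)^(-(1:ℝ)/6) = 1 := by
    rw [← Real.rpow_add h0]; norm_num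
  have h3 : (1 + (w:ℝ)⁻¹) ^ (-(1:ℝ)/6) = (w:ℝ)^((1:ℝ)/6) * ((w:ℝ)+1)^(-(1:ℝ)/6) := by
    have e1 : 1 + (w:ℝ)⁻¹ = ((w:ℝ)+1) * (w:ℝ)⁻¹ := by field_simp
    rw [e1, Real.mul_rpow (by positivity) (by positivity), Real.inv_rpow h0.le, ← Real.rpow_neg h0.le]
    rw [mul_comm]
    congr 2
    norm_num
  rw [h1, h3, inv_inv, add_zero, Real.one_rpow]
  linear_combination (w:ℝ) * h2

theorem v_lim : Tendsto (fun w : ℕ => (w:ℝ)^((7:ℝ)/6) * v w) atTop (𝓝 (1/6)) := by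
  have hd : HasDerivAt (fun x : ℝ => x ^ (-(1:ℝ)/6)) (-(1:ℝ)/6 * (1 + 0) ^ (-(1:ℝ)/6 - 1)) (1 + 0) :=
    Real.hasDerivAt_rpow_const (Or.inl (by norm_num))
  have hd2 : HasDerivAt (fun x : ℝ => (1 + x) ^ (-(1:ℝ)/6)) (-(1:ℝ)/6 * (1 + 0) ^ (-(1:ℝ)/6 - 1)) 0 := by
    have := HasDerivAt.comp (0:ℝ) hd ((hasDerivAt_id (0:ℝ)).const_add 1)
    rw [mul_one] at this
    exact this
  rw [hasDerivAt_iff_tendsto_slope_zero] at hd2
  have ht : Tendsto (fun w : ℕ => ((w:ℝ))⁻¹) atTop (𝓝[≠] 0) := by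
    rw [tendsto_nhdsWithin_iff]
    refine ⟨tendsto_inv_atTop_zero.comp tendsto_natCast_atTop_atTop, ?_⟩
    filter_upwards [eventually_ge_atTop 1] with w hw
    have h0 : (0:ℝ) < w := by exact_mod_cast hw
    exact (inv_pos.mpr h0).ne'
  have h1 := (hd2.comp ht).neg
  have h2 : -(-(1:ℝ)/6 * (1 + 0) ^ (-(1:ℝ)/6 - 1)) = 1/6 := by
    rw [add_zero, Real.one_rpow]; norm_num
  rw [h2] at h1
  refine h1.congr' ?_
  filter_upwards [eventually_ge_atTop 1] with w hw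
  rw [v_eq hw]
  simp [smul_eq_mul]

theorem v_sum {N : ℕ} (hN : 1 ≤ N) : HasSum (fun w => v (w + N)) ((N:ℝ)^(-(1:ℝ)/6)) := by
  rw [hasSum_iff_tendsto_nat_of_nonneg (fun w => v_nonneg (by omega))]
  have h1 : ∀ n : ℕ, ∑ i ∈ range n, v (i + N) = (N:ℝ)^(-(1:ℝ)/6) - ((n + N : ℕ):ℝ)^(-(1:ℝ)/6) := by
    intro n
    have := Finset.sum_range_sub' (fun i : ℕ => ((i + N : ℕ):ℝ)^(-(1:ℝ)/6)) n
    rw [zero_add] at this
    rw [← this]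
    refine sum_congr rfl (fun i _ => ?_)
    unfold v
    push_cast
    ring_nf
  simp_rw [h1]
  have h2 : Tendsto (fun n : ℕ => ((n + N : ℕ):ℝ)^(-(1:ℝ)/6)) atTop (𝓝 0) := by
    have h3 : Tendsto (fun x : ℝ => x ^ (-((1:ℝ)/6))) atTop (𝓝 0) := tendsto_rpow_neg_atTop (by norm_num)
    have h4 : Tendsto (fun n : ℕ => ((n + N : ℕ):ℝ)) atTop atTop :=
      tendsto_natCast_atTop_atTop.comp (tendsto_add_atTop_nat N)
    have h5 := h3.comp h4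
    refine h5.congr (fun n => ?_)
    simp only [Function.comp]
    congr 1
    norm_num
  have := (tendsto_const_nhds (x := (N:ℝ)^(-(1:ℝ)/6)) (f := atTop (α := ℕ))).sub h2
  rwa [sub_zero] at this

end Z

open Z in
theorem t_Z : S_Z := by
  intro q D hq hs hlim
  rw [Metric.tendsto_atTop]
  intro ε hε
  have h1 : Tendsto (fun w : ℕ => (w:ℝ)^((7:ℝ)/6) * q w - 6 * D * ((w:ℝ)^((7:ℝ)/6) * v w)) atTop (𝓝 0) := by
    have := hlim.sub (v_lim.const_mul (6 * D))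
    have e : D - 6 * D * (1/6) = 0 := by ring
    rwa [e] at this
  have h2 := (Metric.tendsto_atTop.mp h1) (ε / 24) (by positivity)
  obtain ⟨N₁, hN₁⟩ := h2
  obtain ⟨N₂, hN₂⟩ := (Metric.tendsto_atTop.mp v_lim) (1/12) (by norm_num)
  refine ⟨max 1 (max N₁ N₂), fun N hN => ?_⟩
  have hN1 : 1 ≤ N := le_trans (le_max_left _ _) hN
  have hNN₁ : N₁ ≤ N := le_trans (le_trans (le_max_left _ _) (le_max_right _ _)) hN
  have hNN₂ : N₂ ≤ N := le_trans (le_trans (le_max_right _ _) (le_max_right _ _)) hN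
  have hb : ∀ w : ℕ, |q (w + N) - 6 * D * v (w + N)| ≤ ε / 2 * v (w + N) := by
    intro w
    have a1 := hN₁ (w + N) (by omega)
    have a2 := hN₂ (w + N) (by omega)
    rw [Real.dist_eq, sub_zero] at a1
    rw [Real.dist_eq, abs_lt] at a2
    have hpos : (0:ℝ) < ((w + N : ℕ):ℝ)^((7:ℝ)/6) := by
      apply Real.rpow_pos_of_pos
      have : 0 < w + N := by omega
      exact_mod_cast this
    have e : ((w + N : ℕ):ℝ)^((7:ℝ)/6) * q (w + N) - 6 * D * (((w + N : ℕ):ℝ)^((7:ℝ)/6) * v (w + N)) =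
        ((w + N : ℕ):ℝ)^((7:ℝ)/6) * (q (w + N) - 6 * D * v (w + N)) := by ring
    rw [e, abs_mul, abs_of_pos hpos] at a1
    have a3 : ((w + N : ℕ):ℝ)^((7:ℝ)/6) * |q (w + N) - 6 * D * v (w + N)| ≤
        ((w + N : ℕ):ℝ)^((7:ℝ)/6) * (ε / 2 * v (w + N)) := by
      have a4 : (1:ℝ)/12 ≤ ((w + N : ℕ):ℝ)^((7:ℝ)/6) * v (w + N) := by linarith [a2.1]
      nlinarith [a4, a1, hε]
    exact le_of_mul_le_mul_left a3 hpos
  have hsv := v_sum hN1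
  have hsq : Summable (fun w => q (w + N)) := (summable_nat_add_iff N).mpr hs
  have h3 : Summable (fun w => q (w + N) - 6 * D * v (w + N)) := hsq.sub (hsv.summable.mul_left _)
  have h4 : |∑' w, (q (w + N) - 6 * D * v (w + N))| ≤ ε / 2 * (N:ℝ)^(-(1:ℝ)/6) := by
    have h5 : HasSum (fun w => ε / 2 * v (w + N)) (ε / 2 * (N:ℝ)^(-(1:ℝ)/6)) := hsv.mul_left _
    have h6 := tsum_of_norm_bounded h5 (fun w => by rw [Real.norm_eq_abs]; exact hb w)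
    rwa [Real.norm_eq_abs] at h6
  rw [hsq.tsum_sub (hsv.summable.mul_left _), tsum_mul_left, hsv.tsum_eq] at h4
  have h0 : (0:ℝ) < N := by exact_mod_cast hN1
  have hp : (N:ℝ)^((1:ℝ)/6) * (N:ℝ)^(-(1:ℝ)/6) = 1 := by
    rw [← Real.rpow_add h0]; norm_num
  have hpp : (0:ℝ) < (N:ℝ)^((1:ℝ)/6) := Real.rpow_pos_of_pos h0 _
  rw [Real.dist_eq]
  have e2 : (N:ℝ)^((1:ℝ)/6) * ∑' w, q (w + N) - 6 * D =
      (N:ℝ)^((1:ℝ)/6) * (∑' w, q (w + N) - 6 * D * (N:ℝ)^(-(1:ℝ)/6)) := by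
    linear_combination (6 * D) * hp
  rw [e2, abs_mul, abs_of_pos hpp]
  calc (N:ℝ)^((1:ℝ)/6) * |∑' w, q (w + N) - 6 * D * (N:ℝ)^(-(1:ℝ)/6)| ≤
      (N:ℝ)^((1:ℝ)/6) * (ε / 2 * (N:ℝ)^(-(1:ℝ)/6)) := mul_le_mul_of_nonneg_left h4 hpp.le
    _ = ε / 2 := by linear_combination (ε / 2) * hp
    _ < ε := by linarith

end Pool.Agent.H966.N6
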